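import Pool.Agent.Helper30.RD9.Sheet
import Pool.Agent.Helper85.RD9.MAIN9

set_option autoImplicit false

namespace Pool.Agent.Helper30.RD9

open Finset Pool.Agent.Helper18.RD Pool.Agent.Helper19.RD

/-- product of a subset in a window -/
lemma window (G : Finset ℕ) (A B : ℝ) (hA : 1 ≤ A) (hG : A ≤ ∏ p ∈ G, (p : ℝ))
    (hB : ∀ p ∈ G, (1 : ℝ) ≤ p ∧ (p : ℝ) ≤ B) (hB1 : 1 ≤ B) :
    ∃ T ⊆ G, A ≤ ∏ p ∈ T, (p : ℝ) ∧ ∏ p ∈ T, (p : ℝ) ≤ A * B := by
  classical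
  induction G using Finset.induction_on with
  | empty =>
    refine ⟨∅, subset_rfl, hG, ?_⟩
    rw [prod_empty]
    exact one_le_mul_of_one_le_of_one_le hA hB1
  | insert p G hp ih =>
    by_cases h : A ≤ ∏ p ∈ G, (p : ℝ)
    · obtain ⟨T, hT, h1, h2⟩ := ih h (fun x hx => hB x (mem_insert_of_mem hx))
      exact ⟨T, hT.trans (subset_insert _ _), h1, h2⟩
    · push Not at h
      refine ⟨insert p G, subset_rfl, hG, ?_⟩
      rw [prod_insert hp, mul_comm]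
      have h1 := hB p (mem_insert_self _ _)
      have h0 : (0 : ℝ) ≤ ∏ p ∈ G, (p : ℝ) := prod_nonneg fun x _ => Nat.cast_nonneg _
      exact mul_le_mul h.le h1.2 (by linarith) (by linarith)

/-- lower bound for a product -/
lemma prod_ge (G : Finset ℕ) (A : ℝ) (hA : 0 ≤ A) (hG : ∀ p ∈ G, A ≤ p) :
    A ^ G.card ≤ ∏ p ∈ G, (p : ℝ) := by
  rw [← prod_const]
  exact prod_le_prod (fun _ _ => hA) hG

/-- few points have one of finitely many rare properties -/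
lemma card_ex (J T : Finset ℕ) (P : ℕ → ℕ → Prop) [∀ p j, Decidable (P p j)]
    [DecidablePred fun j => ∃ p ∈ T, P p j] (ρ : ℝ)
    (h : ∀ p ∈ T, ((J.filter (fun j => P p j)).card : ℝ) ≤ ρ) :
    ((J.filter (fun j => ∃ p ∈ T, P p j)).card : ℝ) ≤ T.card * ρ := by
  classical
  have h1 : J.filter (fun j => ∃ p ∈ T, P p j) ⊆ T.biUnion (fun p => J.filter (fun j => P p j)) := by
    intro j hj
    obtain ⟨hj1, p, hp, hj2⟩ := mem_filter.mp hj
    exact mem_biUnion.mpr ⟨p, hp, mem_filter.mpr ⟨hj1, hj2⟩⟩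
  calc ((J.filter (fun j => ∃ p ∈ T, P p j)).card : ℝ)
      ≤ ((T.biUnion (fun p => J.filter (fun j => P p j))).card : ℝ) := by
        exact_mod_cast card_le_card h1
    _ ≤ ∑ p ∈ T, ((J.filter (fun j => P p j)).card : ℝ) := by exact_mod_cast card_biUnion_le
    _ ≤ ∑ _p ∈ T, ρ := sum_le_sum h
    _ = T.card * ρ := by rw [sum_const, nsmul_eq_mul]

theorem st_MAIN11 (hA : ST_A1P) (hP : ST_PGX) (hS : ST_SPR) : ST_MAIN11 := by
  classical
  intro ε hε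
  by_cases hε4 : 1 / 4 ≤ ε
  · refine ⟨1, one_pos, ?_⟩
    intro N q a hN hq hcopa _
    have hNr : (1 : ℝ) ≤ N := by exact_mod_cast hN
    have h1 : (((range N).filter (fun n => IsSquare (q * n + a))).card : ℝ) ≤ N := by
      have h2 := card_filter_le (range N) (fun n => IsSquare (q * n + a))
      rw [card_range] at h2
      exact_mod_cast h2
    refine h1.trans ?_
    rw [one_mul]
    calc (N : ℝ) = (N : ℝ) ^ (1 : ℝ) := (Real.rpow_one _).symm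
      _ ≤ (N : ℝ) ^ (1 / 2 + 2 * ε) := Real.rpow_le_rpow_of_exponent_le hNr (by linarith)
  push Not at hε4
  obtain ⟨ε1, hε1⟩ : ∃ ε1 : ℝ, ε1 = min ε (1 / 10) := ⟨_, rfl⟩
  have hε1a : 0 < ε1 := by rw [hε1]; exact lt_min hε (by norm_num)
  have hε1b : ε1 ≤ ε := by rw [hε1]; exact min_le_left _ _
  have hε1c : ε1 ≤ 1 / 10 := by rw [hε1]; exact min_le_right _ _
  obtain ⟨δ, N0, hδ, hδε, hA⟩ := hA ε1 (ε / 4) hε1a hε1c (by linarith)
  obtain ⟨κ, hκ⟩ : ∃ κ : ℝ, κ = ε1 / 8 * (3 * ε / 4) := ⟨_, rfl⟩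
  have hκ0 : 0 < κ := by rw [hκ]; positivity
  obtain ⟨N2, hN2⟩ : ∃ N2 : ℕ, ∀ N : ℕ, N2 ≤ N →
      (32 : ℝ) ≤ (N : ℝ) ^ δ ∧ (3 : ℝ) ≤ (N : ℝ) ^ ε ∧ 400 * (1 / ε + 2) ≤ (N : ℝ) ^ κ ∧
        (2 : ℝ) ≤ N := by
    have h1 : ∀ᶠ x : ℝ in Filter.atTop, (32 : ℝ) ≤ x ^ δ :=
      (tendsto_rpow_atTop hδ).eventually_ge_atTop 32
    have h2 : ∀ᶠ x : ℝ in Filter.atTop, (3 : ℝ) ≤ x ^ ε :=
      (tendsto_rpow_atTop hε).eventually_ge_atTop 3
    have h3 : ∀ᶠ x : ℝ in Filter.atTop, 400 * (1 / ε + 2) ≤ x ^ κ :=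
      (tendsto_rpow_atTop hκ0).eventually_ge_atTop _
    have h4 : ∀ᶠ x : ℝ in Filter.atTop, (32 : ℝ) ≤ x ^ δ ∧ (3 : ℝ) ≤ x ^ ε ∧
        400 * (1 / ε + 2) ≤ x ^ κ ∧ (2 : ℝ) ≤ x := by
      filter_upwards [h1, h2, h3, Filter.eventually_ge_atTop 2] with x a1 a2 a3 a4
      exact ⟨a1, a2, a3, a4⟩
    obtain ⟨N2, hN2⟩ := Filter.eventually_atTop.mp (tendsto_natCast_atTop_atTop.eventually h4)
    exact ⟨N2, fun N hN => hN2 N hN⟩
  obtain ⟨C, hC⟩ : ∃ C : ℝ, C = N0 + N2 + 100 := ⟨_, rfl⟩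
  have hN0' : (0 : ℝ) ≤ N0 := Nat.cast_nonneg _
  have hN2' : (0 : ℝ) ≤ N2 := Nat.cast_nonneg _
  have hC100 : 100 ≤ C := by rw [hC]; linarith
  have hCpos : 0 < C := by linarith
  refine ⟨C, hCpos, ?_⟩
  intro N q a hN hq hcopa hcard
  have hNr : (1 : ℝ) ≤ N := by exact_mod_cast hN
  have hNpos : (0 : ℝ) < N := by linarith
  obtain ⟨PS, hPS⟩ : ∃ PS : Finset ℕ, PS = (range (N + 1)).filter (fun p : ℕ => p.Prime ∧ ¬ p ∣ q ∧
    (N : ℝ) ^ ε ≤ p ∧ (p : ℝ) ≤ (N : ℝ) ^ (2 * ε)) := ⟨_, rfl⟩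
  rw [← hPS] at hcard
  change ((SS N q a).card : ℝ) ≤ _
  obtain ⟨R, hR⟩ : ∃ R : ℝ, R = ((SS N q a).card : ℝ) := ⟨_, rfl⟩
  rw [← hR]
  have hRN : R ≤ N := by
    have h1 : (SS N q a).card ≤ N := by
      calc (SS N q a).card ≤ (range N).card := card_filter_le _ _
        _ = N := card_range N
    rw [hR]; exact_mod_cast h1
  by_contra hcon
  push Not at hcon
  have hNε : 1 ≤ (N : ℝ) ^ ε := Real.one_le_rpow hNr hε.le
  have hNh : 1 ≤ (N : ℝ) ^ (1 / 2 + 2 * ε) := Real.one_le_rpow hNr (by linarith)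
  have hNC : C ≤ N := by
    have : C * 1 ≤ C * (N : ℝ) ^ (1 / 2 + 2 * ε) := mul_le_mul_of_nonneg_left hNh hCpos.le
    linarith
  have hNN0 : N0 ≤ N := by
    have : (N0 : ℝ) ≤ N := by linarith
    exact_mod_cast this
  have hNN2 : N2 ≤ N := by
    have : (N2 : ℝ) ≤ N := by linarith
    exact_mod_cast this
  obtain ⟨hb1, hb2, hb3, hb4⟩ := hN2 N hNN2
  have hbig : (N : ℝ) ^ (1 / 2 + ε1) ≤ ((SS N q a).card : ℝ) := by
    rw [← hR]
    calc (N : ℝ) ^ (1 / 2 + ε1) ≤ (N : ℝ) ^ (1 / 2 + 2 * ε) :=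
          Real.rpow_le_rpow_of_exponent_le hNr (by linarith)
      _ = 1 * (N : ℝ) ^ (1 / 2 + 2 * ε) := (one_mul _).symm
      _ ≤ C * (N : ℝ) ^ (1 / 2 + 2 * ε) := by
          apply mul_le_mul_of_nonneg_right _ (by positivity)
          linarith
      _ ≤ R := hcon.le
  obtain ⟨S, J, e, c, d, k, w, m, b, hdat, hJS, hJ, hrow, hTN⟩ := hA N q a hNN0 hq hcopa hbig
  rw [← hR] at hJ
  have hJsub : J ⊆ range N := by
    intro i hi
    exact (mem_filter.mp (hdat.sub (hJS hi))).1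
  -- J is large
  have hJbig : C * (N : ℝ) ^ (1 / 2 + ε) < J.card := by
    have h2 : (N : ℝ) ^ (1 / 2 + 2 * ε) = (N : ℝ) ^ ε * (N : ℝ) ^ (1 / 2 + ε) := by
      rw [← Real.rpow_add hNpos]; congr 1; ring
    have h3 : (N : ℝ) ^ (ε1 / 4) ≤ (N : ℝ) ^ ε :=
      Real.rpow_le_rpow_of_exponent_le hNr (by linarith)
    have h4 : (N : ℝ) ^ (ε1 / 4) * J.card ≤ (N : ℝ) ^ ε * J.card := by gcongr
    have h5 : (N : ℝ) ^ ε * (C * (N : ℝ) ^ (1 / 2 + ε)) < (N : ℝ) ^ ε * J.card := by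
      calc (N : ℝ) ^ ε * (C * (N : ℝ) ^ (1 / 2 + ε)) = C * (N : ℝ) ^ (1 / 2 + 2 * ε) := by
            rw [h2]; ring
        _ < R := hcon
        _ ≤ _ := hJ.trans h4
    exact lt_of_mul_lt_mul_left h5 (by positivity)
  have hNh2 : 1 ≤ (N : ℝ) ^ (1 / 2 + ε) := Real.one_le_rpow hNr (by linarith)
  have hJ100 : (100 : ℝ) ≤ J.card := by nlinarith
  have hJ100' : 100 ≤ J.card := by exact_mod_cast hJ100
  have hsqN : Real.sqrt N ≤ (N : ℝ) ^ (1 / 2 + ε) := by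
    rw [Real.sqrt_eq_rpow]
    exact Real.rpow_le_rpow_of_exponent_le hNr (by linarith)
  -- the rows
  obtain ⟨ρ, hρ⟩ : ∃ ρ : ℝ, ρ = (N : ℝ) ^ (-κ) := ⟨_, rfl⟩
  have hρ0 : 0 < ρ := by rw [hρ]; positivity
  have hρ1 : 400 * (1 / ε + 2) * ρ ≤ 1 := by
    rw [hρ]
    calc 400 * (1 / ε + 2) * (N : ℝ) ^ (-κ) ≤ (N : ℝ) ^ κ * (N : ℝ) ^ (-κ) := by gcongr
      _ = 1 := by rw [← Real.rpow_add hNpos]; simp
  have hPSp : ∀ p ∈ PS, p.Prime ∧ ¬ p ∣ q ∧ (N : ℝ) ^ ε ≤ p ∧ (p : ℝ) ≤ (N : ℝ) ^ (2 * ε) ∧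
      p ≠ 2 := by
    intro p hp
    rw [hPS, mem_filter] at hp
    refine ⟨hp.2.1, hp.2.2.1, hp.2.2.2.1, hp.2.2.2.2, ?_⟩
    rintro rfl
    have := hp.2.2.2.1
    push_cast at this
    linarith
  have hrow' : ∀ p ∈ PS, ∀ i ∈ J,
      ((J.filter (fun j => i ≠ j ∧ (d i j).natAbs.factorization p ≠ b p)).card : ℝ) ≤
        ρ * J.card := by
    intro p hp i hi
    obtain ⟨h1, h2, h3, h4, h5⟩ := hPSp p hp
    refine (hrow i hi p h1 h5).trans ?_
    apply mul_le_mul_of_nonneg_right _ (by positivity)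
    have h6 : (p : ℝ) ^ (-(ε1 / 8)) ≤ ((N : ℝ) ^ ε) ^ (-(ε1 / 8)) :=
      Real.rpow_le_rpow_of_nonpos (by positivity) h3 (by linarith)
    calc (N : ℝ) ^ (ε1 / 8 * (ε / 4)) * (p : ℝ) ^ (-(ε1 / 8))
        ≤ (N : ℝ) ^ (ε1 / 8 * (ε / 4)) * ((N : ℝ) ^ ε) ^ (-(ε1 / 8)) := by gcongr
      _ = ρ := by
          rw [← Real.rpow_mul hNpos.le, ← Real.rpow_add hNpos, hρ, hκ]; congr 1; ring
  have hd1 : ∀ i ∈ J, ∀ j ∈ J, i ≠ j → 1 ≤ d i j := fun i hi j hj hij =>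
    hdat.pos i (hJS hi) j (hJS hj) hij
  -- the bad primes
  obtain ⟨K0, hK0⟩ : ∃ K0 : ℕ, K0 = ⌈1 / (2 * ε)⌉₊ := ⟨_, rfl⟩
  have hK0a : 1 / (2 * ε) ≤ K0 := by rw [hK0]; exact Nat.le_ceil _
  have hK0b : (K0 : ℝ) ≤ 1 / (2 * ε) + 1 := by
    rw [hK0]; exact (Nat.ceil_lt_add_one (by positivity)).le
  have h12 : 1 / (2 * ε) = (1 / ε) / 2 := by field_simp
  have hiε : 0 < 1 / ε := by positivity
  have hbad : (PS.filter (fun p => b p ≠ 0)).card < K0 := by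
    by_contra hK
    push Not at hK
    obtain ⟨T, hT, hTc⟩ := exists_subset_card_eq hK
    have hTP : ∀ p ∈ T, p ∈ PS ∧ b p ≠ 0 := fun p hp => mem_filter.mp (hT hp)
    have hJne : J.Nonempty := by rw [← card_pos]; omega
    obtain ⟨i0, hi0⟩ := hJne
    have h1 := card_ex J T (fun p j => i0 ≠ j ∧ (d i0 j).natAbs.factorization p ≠ b p)
      (ρ * J.card) (fun p hp => hrow' p (hTP p hp).1 i0 hi0)
    rw [hTc] at h1
    have h2 : (K0 : ℝ) * (ρ * J.card) ≤ J.card / 4 := by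
      have h3 : (K0 : ℝ) * ρ ≤ 1 / 4 := by nlinarith
      calc (K0 : ℝ) * (ρ * J.card) = (K0 * ρ) * J.card := by ring
        _ ≤ 1 / 4 * J.card := mul_le_mul_of_nonneg_right h3 (by positivity)
        _ = _ := by ring
    obtain ⟨Pi, hPi⟩ : ∃ Pi : ℕ, Pi = ∏ p ∈ T, p := ⟨_, rfl⟩
    have hPi0 : 0 < Pi := by
      rw [hPi]; exact prod_pos fun p hp => (hPSp p (hTP p hp).1).1.pos
    have hPibig : Real.sqrt N ≤ Pi := by
      have h3 := prod_ge T ((N : ℝ) ^ ε) (by positivity) (fun p hp => (hPSp p (hTP p hp).1).2.2.1)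
      rw [hTc] at h3
      rw [hPi]
      push_cast
      refine le_trans ?_ h3
      rw [Real.sqrt_eq_rpow, ← Real.rpow_natCast, ← Real.rpow_mul hNpos.le]
      apply Real.rpow_le_rpow_of_exponent_le hNr
      have h4 : ε * (1 / (2 * ε)) ≤ ε * K0 := mul_le_mul_of_nonneg_left hK0a hε.le
      have h5 : ε * (1 / (2 * ε)) = 1 / 2 := by field_simp
      linarith
    have h3 : J ⊆ (J.filter (fun j => ∃ p ∈ T, i0 ≠ j ∧
        (d i0 j).natAbs.factorization p ≠ b p)) ∪ ({i0} ∪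
          J.filter (fun j : ℕ => (Pi : ℤ) ∣ (i0 : ℤ) - j)) := by
      intro j hj
      rw [mem_union, mem_union, mem_singleton, mem_filter, mem_filter]
      by_cases hji : j = i0
      · right; left; exact hji
      · by_cases hex : ∃ p ∈ T, i0 ≠ j ∧ (d i0 j).natAbs.factorization p ≠ b p
        · left; exact ⟨hj, hex⟩
        · right; right
          refine ⟨hj, ?_⟩
          push Not at hex
          have hne : i0 ≠ j := fun h => hji h.symm
          rw [Int.natCast_dvd, hPi]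
          refine Finset.prod_primes_dvd _ (fun p hp => (hPSp p (hTP p hp).1).1.prime) ?_
          intro p hp
          obtain ⟨a1, a2, a3, a4, a5⟩ := hPSp p (hTP p hp).1
          have h5 := hex p hp hne
          have h6 : (d i0 j).natAbs.factorization p ≠ 0 := by
            rw [h5]; exact (hTP p hp).2
          have h7 : p ∣ (d i0 j).natAbs := Nat.dvd_of_factorization_pos h6
          have hcd := hdat.dat.cd i0 (hJS hi0) j (hJS hj) hne
          have h8 : (p : ℤ) ∣ k * ((i0 : ℤ) - j) := by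
            rw [← hcd]
            exact Dvd.dvd.mul_left (Int.natCast_dvd.2 h7) _
          have h9 : IsCoprime (p : ℤ) k := by
            rcases hdat.dat.kap with h | h
            · rw [h]; exact isCoprime_one_right
            · rw [h]
              have : Nat.Coprime p 2 := (Nat.coprime_primes a1 Nat.prime_two).2 a5
              exact_mod_cast Nat.isCoprime_iff_coprime.2 this
          exact Int.natCast_dvd.1 (h9.dvd_of_dvd_mul_left h8)
    have h4 := card_le_card h3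
    have h5 := card_union_le (J.filter (fun j => ∃ p ∈ T, i0 ≠ j ∧
        (d i0 j).natAbs.factorization p ≠ b p)) ({i0} ∪
          J.filter (fun j : ℕ => (Pi : ℤ) ∣ (i0 : ℤ) - j))
    have h6 := card_union_le ({i0} : Finset ℕ) (J.filter (fun j : ℕ => (Pi : ℤ) ∣ (i0 : ℤ) - j))
    rw [card_singleton] at h6
    have h7 := Pool.Agent.Helper85.RD9.cnt N Pi i0 hPi0 J hJsub
    have h8 : (J.card : ℝ) ≤ ((J.filter (fun j => ∃ p ∈ T, i0 ≠ j ∧
        (d i0 j).natAbs.factorization p ≠ b p)).card : ℝ) + (1 + (((N / Pi : ℕ) : ℝ) + 1)) := by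
      have h9 : J.card ≤ (J.filter (fun j => ∃ p ∈ T, i0 ≠ j ∧
        (d i0 j).natAbs.factorization p ≠ b p)).card + (1 + (N / Pi + 1)) := by omega
      exact_mod_cast h9
    have h9 : ((N / Pi : ℕ) : ℝ) ≤ (N : ℝ) / Pi := Nat.cast_div_le
    have h10 : (N : ℝ) / Pi ≤ Real.sqrt N := by
      rw [div_le_iff₀ (by exact_mod_cast hPi0)]
      calc (N : ℝ) = Real.sqrt N * Real.sqrt N := (Real.mul_self_sqrt hNpos.le).symm
        _ ≤ Real.sqrt N * Pi := by gcongr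
    have h11 : 100 * Real.sqrt N ≤ J.card := by
      calc 100 * Real.sqrt N ≤ C * (N : ℝ) ^ (1 / 2 + ε) := by gcongr
        _ ≤ J.card := hJbig.le
    linarith
  -- the good primes
  obtain ⟨G, hG⟩ : ∃ G : Finset ℕ, G = PS.filter (fun p => b p = 0) := ⟨_, rfl⟩
  have hGc : 1 / ε ≤ G.card := by
    have h1 := card_filter_add_card_filter_not (s := PS) (fun p => b p = 0)
    rw [← hG] at h1
    have h2 : (G.card : ℝ) + ((PS.filter (fun p => ¬ b p = 0)).card : ℝ) = PS.card := by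
      exact_mod_cast h1
    have h3 : ((PS.filter (fun p => ¬ b p = 0)).card : ℝ) ≤ K0 := by
      exact_mod_cast hbad.le
    have h4 : 4 / ε = 4 * (1 / ε) := by ring
    linarith
  have hGP : ∀ p ∈ G, p ∈ PS ∧ b p = 0 := by
    intro p hp
    rw [hG] at hp
    exact mem_filter.mp hp
  have hAB : (N : ℝ) ^ (1 - 2 * ε) * (N : ℝ) ^ (2 * ε) = N := by
    rw [← Real.rpow_add hNpos]
    rw [show 1 - 2 * ε + 2 * ε = 1 by ring, Real.rpow_one]
  obtain ⟨T, hTG, hT1, hT2⟩ := window G ((N : ℝ) ^ (1 - 2 * ε)) ((N : ℝ) ^ (2 * ε))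
    (Real.one_le_rpow hNr (by linarith)) (by
      refine le_trans ?_ (prod_ge G ((N : ℝ) ^ ε) (by positivity)
        (fun p hp => (hPSp p (hGP p hp).1).2.2.1))
      rw [← Real.rpow_natCast, ← Real.rpow_mul hNpos.le]
      apply Real.rpow_le_rpow_of_exponent_le hNr
      have h1 : ε * (1 / ε) ≤ ε * G.card := mul_le_mul_of_nonneg_left hGc hε.le
      have h2 : ε * (1 / ε) = 1 := by field_simp
      linarith) (fun p hp => ⟨by
        exact_mod_cast (hPSp p (hGP p hp).1).1.one_lt.le, (hPSp p (hGP p hp).1).2.2.2.1⟩)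
    (Real.one_le_rpow hNr (by linarith))
  rw [hAB] at hT2
  have hTP : ∀ p ∈ T, p ∈ PS ∧ b p = 0 := fun p hp => hGP p (hTG hp)
  obtain ⟨r, hr⟩ : ∃ r : ℕ, r = ∏ p ∈ T, p := ⟨_, rfl⟩
  have hrr : (r : ℝ) = ∏ p ∈ T, (p : ℝ) := by rw [hr]; push_cast; rfl
  rw [← hrr] at hT1 hT2
  have hTpr : ∀ p ∈ T, p.Prime := fun p hp => (hPSp p (hTP p hp).1).1
  have hrf : r.primeFactors = T := by rw [hr]; exact Nat.primeFactors_prod hTpr
  have hrsq : Squarefree r := by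
    rw [hr]
    apply Finset.squarefree_prod_of_pairwise_isCoprime
    · intro p hp p' hp' hne
      exact Nat.coprime_iff_isRelPrime.1 ((Nat.coprime_primes (hTpr p hp) (hTpr p' hp')).2 hne)
    · exact fun p hp => (hTpr p hp).squarefree
  have hr0 : r ≠ 0 := hrsq.ne_zero
  have hrmem : ∀ p : ℕ, p.Prime → p ∣ r → p ∈ T := by
    intro p hp hpr
    rw [← hrf]
    exact Nat.mem_primeFactors.2 ⟨hp, hpr, hr0⟩
  have hrodd : Odd r := by
    rw [← Nat.not_even_iff_odd, even_iff_two_dvd]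
    intro h
    exact (hPSp 2 (hTP 2 (hrmem 2 Nat.prime_two h)).1).2.2.2.2 rfl
  have hrq : Nat.Coprime r q := by
    rw [hr]
    apply Nat.Coprime.prod_left
    intro p hp
    exact (Nat.Prime.coprime_iff_not_dvd (hTpr p hp)).2 (hPSp p (hTP p hp).1).2.1
  have hTc : (T.card : ℝ) ≤ 1 / ε := by
    have h1 := prod_ge T ((N : ℝ) ^ ε) (by positivity)
      (fun p hp => (hPSp p (hTP p hp).1).2.2.1)
    rw [← hrr] at h1
    have h2 : (N : ℝ) ^ (ε * T.card) ≤ (N : ℝ) ^ (1 : ℝ) := by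
      rw [Real.rpow_mul hNpos.le, Real.rpow_natCast, Real.rpow_one]
      exact h1.trans hT2
    have h3 : ε * T.card ≤ 1 := (Real.rpow_le_rpow_left_iff (by linarith)).1 h2
    rw [le_div_iff₀ hε]
    linarith
  have hTρ : 400 * (T.card : ℝ) * ρ ≤ 1 := by
    refine le_trans ?_ hρ1
    gcongr
    linarith
  -- a prime of T dividing m i + m j divides d i j
  have hmd : ∀ p ∈ T, ∀ i ∈ J, ∀ j ∈ J, i ≠ j → (p : ℤ) ∣ m i + m j →
      (d i j).natAbs.factorization p ≠ b p := by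
    intro p hp i hi j hj hij hdvd
    obtain ⟨a1, a2, a3, a4, a5⟩ := hPSp p (hTP p hp).1
    rw [(hTP p hp).2]
    obtain ⟨v, hv1, hv2⟩ := hdat.dv i (hJS hi) j (hJS hj) hij
    rw [← hv2] at hdvd
    have hpp : Prime (p : ℤ) := Nat.prime_iff_prime_int.1 a1
    have h1 : (p : ℤ) ∣ d i j := by
      rcases hpp.dvd_or_dvd hdvd with h | h
      · exact absurd ((Int.natCast_dvd_natCast.1 h).trans hv1) a2
      · exact h
    have h2 : p ∣ (d i j).natAbs := Int.natCast_dvd.1 h1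
    have h3 : (d i j).natAbs ≠ 0 := by
      have := hd1 i hi j hj hij
      omega
    exact (a1.factorization_pos_of_dvd h3 h2).ne'
  have hrows : ∀ i ∈ J, ∀ p : ℕ, p.Prime → p ∣ r →
      ((J.filter (fun j => i ≠ j ∧ (p : ℤ) ∣ m i + m j)).card : ℝ) ≤ ρ * J.card := by
    intro i hi p hp hpr
    have hpT := hrmem p hp hpr
    refine le_trans ?_ (hrow' p (hTP p hpT).1 i hi)
    have h1 : J.filter (fun j => i ≠ j ∧ (p : ℤ) ∣ m i + m j) ⊆
        J.filter (fun j => i ≠ j ∧ (d i j).natAbs.factorization p ≠ b p) := by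
      intro j hj
      rw [mem_filter] at hj ⊢
      exact ⟨hj.1, hj.2.1, hmd p hpT i hi j hj.1 hj.2.1 hj.2.2⟩
    exact_mod_cast card_le_card h1
  -- the bad pairs
  obtain ⟨B, hB⟩ : ∃ B : Finset (ℕ × ℕ), B = J.biUnion (fun i =>
    (J.filter (fun j => ∃ p ∈ T, i ≠ j ∧ (p : ℤ) ∣ m i + m j)).image (fun j => (i, j))) :=
    ⟨_, rfl⟩
  have hBc : 4 * B.card ≤ J.card ^ 2 := by
    have h1 : (B.card : ℝ) ≤ J.card * (T.card * (ρ * J.card)) := by
      rw [hB]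
      calc (((J.biUnion (fun i => (J.filter (fun j => ∃ p ∈ T, i ≠ j ∧
            (p : ℤ) ∣ m i + m j)).image (fun j => (i, j)))).card : ℕ) : ℝ)
          ≤ ∑ i ∈ J, ((((J.filter (fun j => ∃ p ∈ T, i ≠ j ∧
            (p : ℤ) ∣ m i + m j)).image (fun j => (i, j))).card : ℕ) : ℝ) := by
            exact_mod_cast card_biUnion_le
        _ ≤ ∑ _i ∈ J, ((T.card : ℝ) * (ρ * J.card)) := by
            apply sum_le_sum
            intro i hi
            have h2 := card_ex J T (fun p j => i ≠ j ∧ (p : ℤ) ∣ m i + m j) (ρ * J.card)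
              (fun p hp => hrows i hi p (hTpr p hp) (by
                rw [hr]; exact dvd_prod_of_mem _ hp))
            refine le_trans ?_ h2
            exact_mod_cast card_image_le
        _ = J.card * (T.card * (ρ * J.card)) := by rw [sum_const, nsmul_eq_mul]
    have h2 : (4 * B.card : ℝ) ≤ (J.card : ℝ) ^ 2 := by
      have h3 : (4 * (T.card * ρ) : ℝ) ≤ 1 := by nlinarith
      have h4 : (4 * B.card : ℝ) ≤ 4 * (J.card * (T.card * (ρ * J.card))) := by linarith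
      have h5 : 4 * ((J.card : ℝ) * (T.card * (ρ * J.card))) = (4 * (T.card * ρ)) * J.card ^ 2 := by
        ring
      have h6 : (4 * (T.card * ρ)) * (J.card : ℝ) ^ 2 ≤ 1 * (J.card : ℝ) ^ 2 :=
        mul_le_mul_of_nonneg_right h3 (by positivity)
      linarith
    exact_mod_cast h2
  have hξ0 : (0 : ℝ) ≤ (N : ℝ) ^ (-δ) := by positivity
  obtain ⟨x, hx, y, hy, hxy, hxyB, hNQ⟩ := hP J d B ((N : ℝ) ^ (-δ)) (by omega) hξ0 hBc hTN
  have hξ16 : 2 * (N : ℝ) ^ (-δ) ≤ 1 / 16 := by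
    rw [Real.rpow_neg hNpos.le]
    have h1 : ((N : ℝ) ^ δ)⁻¹ ≤ (32 : ℝ)⁻¹ := inv_anti₀ (by norm_num) hb1
    norm_num at h1 ⊢
    linarith
  have hfin := hS N q a r S J e c d k w (2 * (N : ℝ) ^ (-δ)) ρ m x y hN hq hdat hJS hx hy hxy
    hNQ hξ16 hJ100' hrsq hrodd hrq hρ0.le hrows ?_ ?_
  · have hr1 : Real.sqrt r ≤ (N : ℝ) ^ (1 / 2 + ε) :=
      (Real.sqrt_le_sqrt hT2).trans hsqN
    have hrpos : (0 : ℝ) < r := by exact_mod_cast Nat.pos_of_ne_zero hr0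
    have hr2 : (N : ℝ) / Real.sqrt r ≤ (N : ℝ) ^ (1 / 2 + ε) := by
      rw [div_le_iff₀ (Real.sqrt_pos.2 hrpos)]
      have h1 : (N : ℝ) ^ (1 / 2 - ε) ≤ Real.sqrt r := by
        apply Real.le_sqrt_of_sq_le
        rw [← Real.rpow_natCast, ← Real.rpow_mul hNpos.le]
        push_cast
        rw [show (1 / 2 - ε) * 2 = 1 - 2 * ε by ring]
        exact hT1
      calc (N : ℝ) = (N : ℝ) ^ (1 / 2 + ε) * (N : ℝ) ^ (1 / 2 - ε) := by
            rw [← Real.rpow_add hNpos, show 1 / 2 + ε + (1 / 2 - ε) = 1 by ring, Real.rpow_one]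
        _ ≤ (N : ℝ) ^ (1 / 2 + ε) * Real.sqrt r := by gcongr
    nlinarith
  · intro p hp hpr hdvd
    apply hxyB
    rw [hB, mem_biUnion]
    exact ⟨x, hx, mem_image.mpr ⟨y, mem_filter.mpr ⟨hy, p, hrmem p hp hpr, hxy, hdvd⟩, rfl⟩⟩
  · rw [hrf]
    nlinarith

end Pool.Agent.Helper30.RD9
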