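import Pool.Agent.Helper30.RD9.Sheet

set_option autoImplicit false
set_option maxHeartbeats 4000000

namespace Pool.Agent.Helper30.RD9

open Finset Pool.Agent.Helper18.RD Pool.Agent.Helper19.RD

theorem dat_mono {N q : ℕ} {S J : Finset ℕ} {e c d : ℕ → ℕ → ℤ} {k : ℤ} {w : ℝ}
    (h : Dat N q S e c d k w) (hJ : J ⊆ S) : Dat N q J e c d k w where
  sub := hJ.trans h.sub
  kap := h.kap
  sgn := h.sgn
  cd := fun n hn n' hn' hne => h.cd n (hJ hn) n' (hJ hn') hne
  w0 := h.w0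
  gram := fun n hn n' hn' hne => h.gram n (hJ hn) n' (hJ hn') hne
  chi := fun p hp => by
    obtain ⟨f, lam, mu, h1, h2, h3, h4⟩ := h.chi p hp
    exact ⟨f, lam, mu, h1, h2, h3, fun n hn n' hn' hne => h4 n (hJ hn) n' (hJ hn') hne⟩

theorem cyc_pos {J : Finset ℕ} {d : ℕ → ℕ → ℤ} (h : ∀ i ∈ J, ∀ j ∈ J, i ≠ j → 1 ≤ d i j)
    {t : ℕ × ℕ × ℕ × ℕ} (ht : t ∈ T4 J) : 1 ≤ cyc d t := by
  simp only [T4, mem_filter, mem_product] at ht
  obtain ⟨⟨h1, h2, h3, h4⟩, h5, h6, h7, h8⟩ := ht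
  have a1 := h _ h1 _ h3 h5
  have a2 := h _ h1 _ h4 h6
  have a3 := h _ h2 _ h3 h7
  have a4 := h _ h2 _ h4 h8
  unfold cyc
  have b1 : 1 ≤ d t.1 t.2.2.1 * d t.1 t.2.2.2 := by nlinarith
  have b2 : 1 ≤ d t.1 t.2.2.1 * d t.1 t.2.2.2 * d t.2.1 t.2.2.1 := by nlinarith
  nlinarith

theorem st_A1P (hARR : ST_ARR) (hVLB : ST_VLB) (hEXT : ST_EXT) (hWE : ST_WE) (hOSF : ST_OSF)
    (hGGS : ST_GGS) (hCLU : ST_CLU) (hNSQ : ST_NSQ) (hCYB : ST_CYB) (hPAR : ST_PAR)
    (hCDB : ST_CDB) : ST_A1P := by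
  classical
  intro ε η hε hε1 hη
  obtain ⟨γ, hγ⟩ : ∃ γ : ℝ, γ = ε / 8 := ⟨_, rfl⟩
  have hγ0 : 0 < γ := by rw [hγ]; linarith
  obtain ⟨θ, hθ0, hθ, hθη⟩ : ∃ θ : ℝ, 0 < θ ∧ θ ≤ γ / 2000 ∧ θ ≤ γ * η / 2 :=
    ⟨min (γ / 2000) (γ * η / 2), lt_min (by linarith) (by positivity), min_le_left _ _,
      min_le_right _ _⟩
  obtain ⟨τ, hτ0, hτ, hτη⟩ : ∃ τ : ℝ, 0 < τ ∧ τ ≤ γ / 1000 ∧ τ ≤ γ * η / 2 :=
    ⟨min (γ / 1000) (γ * η / 2), lt_min (by linarith) (by positivity), min_le_left _ _,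
      min_le_right _ _⟩
  obtain ⟨C1, hC1, hEXT⟩ := hEXT γ θ hγ0 (by rw [hγ]; linarith) hθ0
  obtain ⟨C2, hC2, hWE⟩ := hWE γ hγ0
  obtain ⟨c3, x3, hc3, hOSF⟩ := hOSF
  obtain ⟨c4, N4, hc4, hVLB⟩ := hVLB ε hε
  obtain ⟨N5, hGGS⟩ := hGGS c4 hc4
  obtain ⟨A, hA⟩ : ∃ A : ℝ, A = 16384 + 1 / c4 + 12 / c3 + x3 + 6 * C1 * C2 + 6 * C1 := ⟨_, rfl⟩
  have i4 : 0 < 1 / c4 := by positivity
  have i3 : 0 < 12 / c3 := by positivity
  have ix : (0 : ℝ) ≤ x3 := Nat.cast_nonneg _
  have i12 : 0 < 6 * C1 * C2 := by positivity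
  have hA0 : 0 < A := by rw [hA]; positivity
  obtain ⟨N6, hPAR⟩ := hPAR A 2 τ hA0 (by norm_num) hτ0
  refine ⟨γ / 1000, max (max N4 N5) N6, by positivity, by rw [hγ]; linarith, ?_⟩
  intro N q a hN hq hcop hSS
  have hN4 : N4 ≤ N := (le_max_left _ _).trans ((le_max_left _ _).trans hN)
  have hN5 : N5 ≤ N := (le_max_right _ _).trans ((le_max_left _ _).trans hN)
  have hN6 : N6 ≤ N := (le_max_right _ _).trans hN
  obtain ⟨hN1, hK1, hz2, hAx, hzx, h40, hzK, hB, hη1, hzA, hη2, hx11, hx10, hAN, hKη⟩ :=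
    hPAR N hN6
  obtain ⟨X, hX⟩ : ∃ X : ℝ, X = (N : ℝ) := ⟨_, rfl⟩
  obtain ⟨L, hL⟩ : ∃ L : ℝ, L = Real.log N := ⟨_, rfl⟩
  have hX1 : 1 ≤ X := by rw [hX]; exact_mod_cast hN1
  have hX0 : 0 < X := by linarith
  have hL0 : 0 ≤ L := by rw [hL]; exact Real.log_natCast_nonneg N
  rw [← hL] at hB hη1 hzA hAN
  rw [← hX] at hSS hB hx11 hx10 hη2 hAN
  have hXpow : ∀ s : ℝ, 0 < X ^ s := fun s => Real.rpow_pos_of_pos hX0 s
  -- the points
  have hSSpos : (0 : ℝ) < (SS N q a).card := lt_of_lt_of_le (hXpow _) hSS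
  have hSSne : (SS N q a).Nonempty := by rw [← card_pos]; exact_mod_cast hSSpos
  obtain ⟨S, e, c, d, k, w, m, hhalf, hD⟩ := hARR N q a hN1 hq hcop hSSne
  have hhalf' : ((SS N q a).card : ℝ) ≤ 2 * S.card := by exact_mod_cast hhalf
  have hSne : S.Nonempty := by
    rw [← card_pos]
    have : (0 : ℝ) < S.card := by linarith
    exact_mod_cast this
  obtain ⟨J0, hJ0S, hJ0ne, b, hSJ, hrow⟩ := hEXT N q a S e c d k w m hN1 hq hcop hD hSne
  rw [← hX] at hSJ hrow
  have hJ0pos : (0 : ℝ) < J0.card := by exact_mod_cast card_pos.mpr hJ0ne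
  have hSSJ0 : ((SS N q a).card : ℝ) ≤ 2 * (C1 * X ^ (γ + θ) * J0.card) := by linarith
  have hL2 : 1 ≤ (1 + L) ^ (2 : ℝ) := Real.one_le_rpow (by linarith) (by norm_num)
  have hAX : A ≤ X ^ τ := by
    refine le_trans ?_ hAN
    exact le_mul_of_one_le_right hA0.le hL2
  have hC1A : 6 * C1 ≤ X ^ τ := by
    refine le_trans ?_ hAX
    rw [hA]
    linarith
  have hC12A : 6 * C1 * C2 ≤ X ^ τ := by
    refine le_trans ?_ hAX
    rw [hA]
    linarith
  -- size of J0
  have hJ0big : X ^ (1 / 2 : ℝ) ≤ J0.card := by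
    have h1 : X ^ (1 / 2 + ε) ≤ X ^ (τ + (γ + θ)) * J0.card := by
      calc X ^ (1 / 2 + ε) ≤ 2 * (C1 * X ^ (γ + θ) * J0.card) := hSS.trans hSSJ0
        _ = (2 * C1) * (X ^ (γ + θ) * J0.card) := by ring
        _ ≤ X ^ τ * (X ^ (γ + θ) * J0.card) := by
          apply mul_le_mul_of_nonneg_right _ (by positivity)
          linarith
        _ = X ^ (τ + (γ + θ)) * J0.card := by rw [Real.rpow_add hX0 τ (γ + θ)]; ring
    have h2 : X ^ (1 / 2 + ε) = X ^ (τ + (γ + θ)) * X ^ (1 / 2 + ε - (τ + (γ + θ))) := by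
      rw [← Real.rpow_add hX0]; congr 1; ring
    rw [h2] at h1
    have h3 := le_of_mul_le_mul_left h1 (hXpow _)
    refine le_trans ?_ h3
    apply Real.rpow_le_rpow_of_exponent_le hX1
    linarith
  have hNJ0 : N ≤ J0.card ^ 2 := by
    have h1 : X ≤ (J0.card : ℝ) ^ 2 := by
      calc X = (X ^ (1 / 2 : ℝ)) ^ 2 := by
            rw [← Real.rpow_natCast, ← Real.rpow_mul hX0.le]; norm_num
        _ ≤ _ := pow_le_pow_left₀ (hXpow _).le hJ0big 2
    rw [hX] at h1
    exact_mod_cast h1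
  have hDJ0 : Dat N q J0 e c d k w := dat_mono hD.dat hJ0S
  obtain ⟨hV1, hV2, hNP⟩ := hVLB N q a hN4 hq hcop (by rw [← hX]; exact hSS)
  obtain ⟨U, hU⟩ : ∃ U : Finset ℕ, U = UN N q := ⟨_, rfl⟩
  rw [← hU] at hV1 hV2
  rw [← hL] at hV1 hV2
  have hUOP : U ⊆ OP q := by rw [hU]; exact filter_subset _ _
  have hUr : ∀ p ∈ U, zN N ≤ p ∧ p ≤ xN N := by
    intro p hp
    rw [hU, UN, mem_filter] at hp
    exact ⟨hp.2.1.le, hp.2.2⟩
  have hG := hGGS N q J0 U e c d k w hN5 hDJ0 hNJ0 hUOP hUr (by rw [← hL]; exact hV1)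
  have hη0 : 0 < eN N := Real.exp_pos _
  obtain ⟨J, hJJ0, hJ3, hJc⟩ := hCLU J0 U e (eN N) hJ0ne hD.dat.sgn hη0.le hG
  have hJS : J ⊆ S := hJJ0.trans hJ0S
  have hJ3' : (J0.card : ℝ) ≤ 3 * J.card := by exact_mod_cast hJ3
  have hJpos : (0 : ℝ) < J.card := by linarith
  have hV0 : 0 < VV U := lt_of_lt_of_le (by positivity) hV1
  refine ⟨S, J, e, c, d, k, w, m, b, hD, hJS, ?_, ?_, ?_⟩
  · -- the size of J
    rw [← hX]
    calc ((SS N q a).card : ℝ) ≤ 2 * (C1 * X ^ (γ + θ) * J0.card) := hSSJ0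
      _ ≤ 2 * (C1 * X ^ (γ + θ) * (3 * J.card)) := by gcongr
      _ = (6 * C1) * X ^ (γ + θ) * J.card := by ring
      _ ≤ X ^ τ * X ^ (γ + θ) * J.card := by gcongr
      _ = X ^ (τ + (γ + θ)) * J.card := by rw [Real.rpow_add hX0 τ (γ + θ)]
      _ ≤ X ^ (ε / 4) * J.card := by
        apply mul_le_mul_of_nonneg_right _ hJpos.le
        apply Real.rpow_le_rpow_of_exponent_le hX1
        linarith
  · -- the rows
    intro i hi p hp hp2
    have h1 := hrow i (hJJ0 hi) p hp.squarefree (hp.odd_of_ne_two hp2)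
    have h2 : (J.filter (fun j => i ≠ j ∧ (d i j).natAbs.factorization p ≠ b p)).card ≤
        (J0.filter (fun j => i ≠ j ∧ ∀ p' ∈ p.primeFactors,
          (d i j).natAbs.factorization p' ≠ b p')).card := by
      refine card_le_card fun j hj => ?_
      rw [mem_filter] at hj ⊢
      refine ⟨hJJ0 hj.1, hj.2.1, fun p' hp' => ?_⟩
      rw [hp.primeFactors, mem_singleton] at hp'
      rw [hp']
      exact hj.2.2
    have h3 : ((J.filter (fun j => i ≠ j ∧ (d i j).natAbs.factorization p ≠ b p)).card : ℝ) ≤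
        C1 * X ^ θ * (p : ℝ) ^ (-γ) * J0.card := le_trans (by exact_mod_cast h2) h1
    rw [← hX, ← hγ]
    have hp0 : (0 : ℝ) ≤ (p : ℝ) ^ (-γ) := by positivity
    calc ((J.filter (fun j => i ≠ j ∧ (d i j).natAbs.factorization p ≠ b p)).card : ℝ)
        ≤ C1 * X ^ θ * (p : ℝ) ^ (-γ) * J0.card := h3
      _ ≤ C1 * X ^ θ * (p : ℝ) ^ (-γ) * (3 * J.card) := by gcongr
      _ = (3 * C1) * X ^ θ * ((p : ℝ) ^ (-γ) * J.card) := by ring
      _ ≤ X ^ τ * X ^ θ * ((p : ℝ) ^ (-γ) * J.card) := by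
        gcongr
        linarith
      _ = X ^ (τ + θ) * (p : ℝ) ^ (-γ) * J.card := by rw [Real.rpow_add hX0]; ring
      _ ≤ X ^ (γ * η) * (p : ℝ) ^ (-γ) * J.card := by
        have h4 : X ^ (τ + θ) ≤ X ^ (γ * η) :=
          Real.rpow_le_rpow_of_exponent_le hX1 (by linarith)
        gcongr
  -- the cycles
  have hx1 : 1 ≤ xN N := le_trans (by omega) hzx
  have hxr : (2 : ℝ) ≤ xN N := by exact_mod_cast hz2.trans hzx
  have hlogx0 : 0 < Real.log (xN N) := Real.log_pos (by linarith)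
  have hlogxL : Real.log (xN N) ≤ L := by
    rw [hL, ← hX]
    apply Real.log_le_log (by linarith)
    refine hx10.trans ?_
    calc X ^ (1 / 10 : ℝ) ≤ X ^ (1 : ℝ) := Real.rpow_le_rpow_of_exponent_le hX1 (by norm_num)
      _ = X := Real.rpow_one X
  have hpos : ∀ i ∈ J, ∀ j ∈ J, i ≠ j → 1 ≤ d i j := fun i hi j hj hij =>
    hD.pos i (hJS hi) j (hJS hj) hij
  have hcyc : ∀ t ∈ T4 J, ∑ p ∈ U.filter (fun p => jacobiSym (cyc d t) p ≠ 1), (1 : ℝ) / p ≤
      6 * eN N * VV U := fun t ht =>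
    hCYB N q S J U e c d k w (eN N) hD.dat hJS hUOP hJc t ht
  have hUp : ∀ p ∈ U, p.Prime ∧ p ≠ 2 ∧ zN N ≤ p ∧ p ≤ xN N := by
    intro p hp
    have h1 := hUOP hp
    rw [OP, mem_erase] at h1
    exact ⟨Nat.prime_of_mem_primeFactors h1.2, h1.1, hUr p hp⟩
  -- large squarefree part
  have hosf : ∀ t ∈ TN J d, (xN N : ℝ) ≤ 4 * (osf (cyc d t) : ℝ) ^ 2 := by
    intro t ht
    rw [TN, mem_filter] at ht
    refine hOSF (cyc d t) (xN N) (zN N) (cyc_pos hpos ht.1) ht.2 ?_ hz2 h40 ?_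
    · have h1 : (x3 : ℝ) ≤ xN N := by
        refine le_trans ?_ hAx
        rw [hA]
        have : 0 < 6 * C1 := by positivity
        linarith
      exact_mod_cast h1
    · have h1 : ∑ p ∈ (Icc (zN N + 1) (xN N)).filter
          (fun p => p.Prime ∧ jacobiSym (cyc d t) p ≠ 1), (1 : ℝ) / p ≤
          ∑ p ∈ (Icc (zN N + 1) (xN N)).filter (fun p => p.Prime ∧ ¬ p ∣ q), (1 : ℝ) / p +
          ∑ p ∈ U.filter (fun p => jacobiSym (cyc d t) p ≠ 1), (1 : ℝ) / p := by
        have hsub : (Icc (zN N + 1) (xN N)).filter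
            (fun p => p.Prime ∧ jacobiSym (cyc d t) p ≠ 1) ⊆
            (Icc (zN N + 1) (xN N)).filter (fun p => p.Prime ∧ ¬ p ∣ q) ∪
              U.filter (fun p => jacobiSym (cyc d t) p ≠ 1) := by
          intro p hp
          rw [mem_filter, mem_Icc] at hp
          rw [mem_union, mem_filter, mem_Icc, mem_filter]
          by_cases hpq : p ∣ q
          · right
            refine ⟨?_, hp.2.2⟩
            rw [hU, UN, mem_filter, OP, mem_erase, Nat.mem_primeFactors]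
            refine ⟨⟨by omega, hp.2.1, hpq, by omega⟩, by omega, hp.1.2⟩
          · left
            exact ⟨hp.1, hp.2.1, hpq⟩
        refine (sum_le_sum_of_subset_of_nonneg hsub fun p _ _ => by positivity).trans ?_
        have h2 := sum_union_inter (s₁ := (Icc (zN N + 1) (xN N)).filter
          (fun p => p.Prime ∧ ¬ p ∣ q)) (s₂ := U.filter
          (fun p => jacobiSym (cyc d t) p ≠ 1)) (f := fun p : ℕ => (1 : ℝ) / p)
        have h3 : 0 ≤ ∑ p ∈ ((Icc (zN N + 1) (xN N)).filter (fun p => p.Prime ∧ ¬ p ∣ q) ∩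
          U.filter (fun p => jacobiSym (cyc d t) p ≠ 1)), (1 : ℝ) / p :=
          sum_nonneg fun p _ => by positivity
        linarith
      have h2 := hcyc t ht.1
      have h3 : (zN N : ℝ) ^ (-(1 / 4) : ℝ) ≤ c3 / 2 / (1 + L) := by
        have hz0 : (0 : ℝ) < zN N := by exact_mod_cast (by omega : 0 < zN N)
        have h4 : 12 / c3 * (1 + L) ≤ (zN N : ℝ) ^ (1 / 4 : ℝ) := by
          refine le_trans ?_ hzA
          have h5 : (1 + L) ≤ (1 + L) ^ (2 : ℝ) := by
            calc (1 + L) = (1 + L) ^ (1 : ℝ) := (Real.rpow_one _).symm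
              _ ≤ _ := Real.rpow_le_rpow_of_exponent_le (by linarith) (by norm_num)
          have h6 : 12 / c3 ≤ A := by
            rw [hA]
            have : 0 < 6 * C1 := by positivity
            linarith
          apply mul_le_mul h6 h5 (by linarith) hA0.le
        rw [Real.rpow_neg hz0.le, inv_eq_one_div, div_le_div_iff₀ (Real.rpow_pos_of_pos hz0 _)
          (by linarith)]
        have h7 : c3 / 2 * (12 / c3 * (1 + L)) = 6 * (1 + L) := by field_simp; ring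
        have h8 : c3 / 2 * (12 / c3 * (1 + L)) ≤ c3 / 2 * (zN N : ℝ) ^ (1 / 4 : ℝ) :=
          mul_le_mul_of_nonneg_left h4 (by positivity)
        linarith
      have h4 : 6 * eN N * VV U ≤ c3 / 2 / (1 + L) := by
        have h5 : 12 / c3 * (1 + L) ^ (2 : ℝ) * eN N ≤ 1 := by
          refine le_trans ?_ hη1
          have h6 : 12 / c3 ≤ A := by
            rw [hA]
            have : 0 < 6 * C1 := by positivity
            linarith
          gcongr
        rw [Real.rpow_two] at h5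
        rw [le_div_iff₀ (by linarith)]
        have h7 : c3 * (12 / c3 * (1 + L) ^ 2 * eN N) = 12 * eN N * (1 + L) ^ 2 := by
          field_simp
        have h8 : c3 * (12 / c3 * (1 + L) ^ 2 * eN N) ≤ c3 * 1 :=
          mul_le_mul_of_nonneg_left h5 hc3.le
        have h9 : 6 * eN N * VV U * (1 + L) ≤ 6 * eN N * (1 + L) * (1 + L) := by
          have h10 : 6 * eN N * VV U ≤ 6 * eN N * (1 + L) :=
            mul_le_mul_of_nonneg_left hV2 (by positivity)
          exact mul_le_mul_of_nonneg_right h10 (by linarith)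
        have h11 : 6 * eN N * (1 + L) * (1 + L) = 1 / 2 * (12 * eN N * (1 + L) ^ 2) := by ring
        rw [h7, mul_one] at h8
        rw [h11] at h9
        linarith only [h8, h9]
      have h5 : c3 / (1 + L) ≤ c3 / Real.log (xN N) := by
        apply div_le_div_of_nonneg_left hc3.le hlogx0
        linarith
      have h6 : c3 / 2 / (1 + L) + c3 / 2 / (1 + L) = c3 / (1 + L) := by ring
      linarith
  -- rows
  obtain ⟨R, hR⟩ : ∃ R : ℝ, R = C1 * X ^ θ * J0.card := ⟨_, rfl⟩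
  have hR0 : 0 ≤ R := by rw [hR]; positivity
  have hR3 : R ≤ 3 * C1 * X ^ θ * J.card := by
    rw [hR]
    calc C1 * X ^ θ * J0.card ≤ C1 * X ^ θ * (3 * J.card) := by gcongr
      _ = _ := by ring
  have hrowJ : ∀ i ∈ J, ∀ h : ℕ, Squarefree h → Odd h →
      ((J.filter (fun j => i ≠ j ∧ ∀ p ∈ h.primeFactors,
        (d i j).natAbs.factorization p ≠ b p)).card : ℝ) ≤ R * (h : ℝ) ^ (-γ) := by
    intro i hi h hh1 hh2
    have h1 := hrow i (hJJ0 hi) h hh1 hh2
    have h2 : (J.filter (fun j => i ≠ j ∧ ∀ p ∈ h.primeFactors,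
        (d i j).natAbs.factorization p ≠ b p)).card ≤
        (J0.filter (fun j => i ≠ j ∧ ∀ p ∈ h.primeFactors,
          (d i j).natAbs.factorization p ≠ b p)).card :=
      card_le_card (filter_subset_filter _ hJJ0)
    have h3 : ((J.filter (fun j => i ≠ j ∧ ∀ p ∈ h.primeFactors,
        (d i j).natAbs.factorization p ≠ b p)).card : ℝ) ≤
        ((J0.filter (fun j => i ≠ j ∧ ∀ p ∈ h.primeFactors,
          (d i j).natAbs.factorization p ≠ b p)).card : ℝ) := by exact_mod_cast h2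
    refine h3.trans (h1.trans (le_of_eq ?_))
    rw [hR]; ring
  obtain ⟨W, hW⟩ : ∃ W : ℝ, W = 6 * C1 * C2 * X ^ (-(γ / 200)) * (J.card : ℝ) ^ 4 := ⟨_, rfl⟩
  have hW0 : 0 ≤ W := by rw [hW]; positivity
  have hclass : ∀ t0 ∈ TN J d,
      (((T4 J).filter (fun t => IsSquare (cyc d t * cyc d t0))).card : ℝ) ≤ W := by
    intro t0 ht0
    have h1 := hosf t0 ht0
    have ht0' : t0 ∈ T4 J := (mem_filter.mp ht0).1
    have h2 := hWE J d b R (cyc d t0) hR0 (cyc_pos hpos ht0') hpos hrowJ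
    have hos1 : (0 : ℝ) < osf (cyc d t0) := by
      rcases Nat.eq_zero_or_pos (osf (cyc d t0)) with h0 | h0
      · rw [h0] at h1
        norm_num at h1
        linarith
      · exact_mod_cast h0
    have h3 : (osf (cyc d t0) : ℝ) ^ (-(γ / 8)) ≤ 2 * X ^ (-(γ / 176)) := by
      have h4 : 1 / 2 * X ^ (1 / 22 : ℝ) ≤ osf (cyc d t0) := by
        have h5 : (X ^ (1 / 22 : ℝ)) ^ 2 ≤ (2 * (osf (cyc d t0) : ℝ)) ^ 2 := by
          calc (X ^ (1 / 22 : ℝ)) ^ 2 = X ^ (1 / 11 : ℝ) := by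
                rw [← Real.rpow_natCast, ← Real.rpow_mul hX0.le]; norm_num
            _ ≤ xN N := hx11
            _ ≤ 4 * (osf (cyc d t0) : ℝ) ^ 2 := h1
            _ = _ := by ring
        have h6 := le_of_sq_le_sq h5 (by positivity)
        linarith
      have h7 : (0 : ℝ) < 1 / 2 * X ^ (1 / 22 : ℝ) := by positivity
      calc (osf (cyc d t0) : ℝ) ^ (-(γ / 8)) ≤ (1 / 2 * X ^ (1 / 22 : ℝ)) ^ (-(γ / 8)) :=
            Real.rpow_le_rpow_of_nonpos h7 h4 (by linarith)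
        _ = (1 / 2 : ℝ) ^ (-(γ / 8)) * (X ^ (1 / 22 : ℝ)) ^ (-(γ / 8)) :=
            Real.mul_rpow (by norm_num) (hXpow _).le
        _ ≤ 2 * X ^ (-(γ / 176)) := by
          have h8 : (1 / 2 : ℝ) ^ (-(γ / 8)) ≤ 2 := by
            calc (1 / 2 : ℝ) ^ (-(γ / 8)) = 2 ^ (γ / 8) := by
                  rw [one_div, Real.inv_rpow (by norm_num), ← Real.rpow_neg (by norm_num),
                    neg_neg]
              _ ≤ 2 ^ (1 : ℝ) := Real.rpow_le_rpow_of_exponent_le (by norm_num)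
                  (by rw [hγ]; linarith)
              _ = 2 := by norm_num
          have h9 : (X ^ (1 / 22 : ℝ)) ^ (-(γ / 8)) = X ^ (-(γ / 176)) := by
            rw [← Real.rpow_mul hX0.le]; congr 1; ring
          rw [h9]
          exact mul_le_mul_of_nonneg_right h8 (hXpow _).le
    calc (((T4 J).filter (fun t => IsSquare (cyc d t * cyc d t0))).card : ℝ)
        ≤ C2 * R * (J.card : ℝ) ^ 3 * (osf (cyc d t0) : ℝ) ^ (-(γ / 8)) := h2
      _ ≤ C2 * (3 * C1 * X ^ θ * J.card) * (J.card : ℝ) ^ 3 * (2 * X ^ (-(γ / 176))) := by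
          gcongr
      _ = 6 * C1 * C2 * (X ^ θ * X ^ (-(γ / 176))) * (J.card : ℝ) ^ 4 := by ring
      _ ≤ 6 * C1 * C2 * X ^ (-(γ / 200)) * (J.card : ℝ) ^ 4 := by
          have h10 : X ^ θ * X ^ (-(γ / 176)) ≤ X ^ (-(γ / 200)) := by
            rw [← Real.rpow_add hX0]
            apply Real.rpow_le_rpow_of_exponent_le hX1
            linarith
          gcongr
      _ = W := hW.symm
  -- the number of nonsquares
  obtain ⟨B, hBd⟩ : ∃ B : ℝ, B = A * (1 + L) * KN N := ⟨_, rfl⟩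
  rw [← hBd] at hB
  have hKr : (1 : ℝ) ≤ KN N := by exact_mod_cast hK1
  have hA1 : 16384 ≤ A := by
    rw [hA]
    have : 0 < 6 * C1 := by positivity
    linarith
  have hc4A : 1 / c4 ≤ A := by
    rw [hA]
    have : 0 < 6 * C1 := by positivity
    linarith
  have hAL : A ≤ A * (1 + L) := le_mul_of_one_le_right hA0.le (by linarith only [hL0])
  have hALK : A * (1 + L) ≤ B := by
    rw [hBd]
    have : 0 ≤ A * (1 + L) := by positivity
    exact le_mul_of_one_le_right this hKr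
  have hB1 : 1 ≤ B := by linarith
  have hB16 : 16384 ≤ B := by linarith
  have hKV : (KN N : ℝ) ^ KN N ≤ B ^ KN N * VV U ^ KN N := by
    rw [← mul_pow]
    apply pow_le_pow_left₀ (by positivity)
    calc (KN N : ℝ) = (c4 * (1 / c4)) * KN N := by rw [mul_one_div_cancel hc4.ne', one_mul]
      _ ≤ (c4 * A) * KN N := by gcongr
      _ = (A * (1 + L) * KN N) * (c4 / (1 + L)) := by field_simp
      _ ≤ B * VV U := by rw [← hBd]; gcongr
  have hVK : 0 < VV U ^ KN N := pow_pos hV0 _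
  have hBK : ∀ n : ℕ, n ≤ 100 * KN N → B ^ n ≤ X ^ τ := fun n hn =>
    (pow_le_pow_right₀ hB1 hn).trans hB
  have hmain := hNSQ N (KN N) (zN N) (xN N) J U d W hN1 hK1 (by omega) hx1 hW0
    (fun i hi j hj hij => hCDB N q a S e c d k w m hD i (hJS hi) j (hJS hj) hij) hUp hV0 ?_
    hclass ?_
  · -- conclusion
    rw [← hX]
    refine hmain.trans ?_
    have h1 : 8 * (KN N : ℝ) ^ KN N * (1 + KN N * Real.log (xN N)) * W / VV U ^ KN N ≤
        X ^ τ * W := by
      rw [div_le_iff₀ hVK]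
      have h2 : 8 * (1 + KN N * Real.log (xN N)) ≤ B ^ 2 := by
        have h3 : (1 + KN N * Real.log (xN N)) ≤ B := by
          have h4 : (KN N : ℝ) * Real.log (xN N) ≤ KN N * L :=
            mul_le_mul_of_nonneg_left hlogxL (by linarith)
          have h5 : (1 + L) * KN N ≤ A * (1 + L) * KN N := by
            have h6 : 0 ≤ (1 + L) * KN N := by positivity
            have h7 : (1 : ℝ) ≤ A := by linarith only [hA1]
            calc (1 + L) * (KN N : ℝ) = 1 * ((1 + L) * KN N) := (one_mul _).symm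
              _ ≤ A * ((1 + L) * KN N) := mul_le_mul_of_nonneg_right h7 h6
              _ = A * (1 + L) * KN N := by ring
          have h8 : (1 + L) * (KN N : ℝ) = KN N + KN N * L := by ring
          rw [hBd]
          linarith only [h4, h5, h8, hKr]
        calc 8 * (1 + KN N * Real.log (xN N)) ≤ B * B := by
              apply mul_le_mul (by linarith) h3 (by positivity) (by linarith)
          _ = B ^ 2 := by ring
      calc 8 * (KN N : ℝ) ^ KN N * (1 + KN N * Real.log (xN N)) * W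
          = (8 * (1 + KN N * Real.log (xN N))) * (KN N : ℝ) ^ KN N * W := by ring
        _ ≤ B ^ 2 * (B ^ KN N * VV U ^ KN N) * W := by gcongr
        _ = B ^ (2 + KN N) * W * VV U ^ KN N := by rw [pow_add]; ring
        _ ≤ X ^ τ * W * VV U ^ KN N := by
          have := hBK (2 + KN N) (by omega)
          gcongr
    refine h1.trans ?_
    rw [hW]
    calc X ^ τ * (6 * C1 * C2 * X ^ (-(γ / 200)) * (J.card : ℝ) ^ 4)
        ≤ X ^ τ * (X ^ τ * X ^ (-(γ / 200)) * (J.card : ℝ) ^ 4) := by gcongr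
      _ = X ^ (τ + τ + -(γ / 200)) * (J.card : ℝ) ^ 4 := by
        rw [Real.rpow_add hX0, Real.rpow_add hX0]; ring
      _ ≤ X ^ (-(γ / 1000)) * (J.card : ℝ) ^ 4 := by
        apply mul_le_mul_of_nonneg_right _ (by positivity)
        apply Real.rpow_le_rpow_of_exponent_le hX1
        linarith
  · -- symbols
    intro t ht
    have h1 := hcyc t ht
    have h2 : VV U - 2 * ∑ p ∈ U.filter (fun p => jacobiSym (cyc d t) p ≠ 1), (1 : ℝ) / p ≤
        ∑ p ∈ U, (jacobiSym (cyc d t) p : ℝ) / p := by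
      rw [VV, sum_filter, mul_sum, ← sum_sub_distrib]
      apply sum_le_sum
      intro p hp
      have hp0 : (0 : ℝ) ≤ 1 / p := by positivity
      split_ifs with h
      · have h3 : (-1 : ℝ) ≤ (jacobiSym (cyc d t) p : ℝ) := by
          rcases jacobiSym.trichotomy (cyc d t) p with h4 | h4 | h4 <;> rw [h4] <;> norm_num
        have h5 : (jacobiSym (cyc d t) p : ℝ) / p = (jacobiSym (cyc d t) p : ℝ) * (1 / p) := by
          ring
        rw [h5]
        have h6 := mul_le_mul_of_nonneg_right h3 hp0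
        linarith only [h6]
      · push Not at h
        rw [h]
        norm_num
    have h3 : 12 * eN N * VV U ≤ VV U * (1 / (2 * KN N)) := by
      have h4 : 12 * eN N ≤ 1 / (2 * KN N) := by
        rw [le_div_iff₀ (by linarith)]
        linarith
      calc 12 * eN N * VV U = VV U * (12 * eN N) := by ring
        _ ≤ VV U * (1 / (2 * KN N)) := mul_le_mul_of_nonneg_left h4 hV0.le
    have h5 : VV U * (1 - 1 / (2 * KN N)) = VV U - VV U * (1 / (2 * KN N)) := by ring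
    rw [h5]
    linarith
  · -- error term
    have hz0 : (0 : ℝ) < (zN N : ℝ) ^ KN N := by
      have : (0 : ℝ) < zN N := by exact_mod_cast (by omega : 0 < zN N)
      positivity
    have h1 : (X : ℝ) ^ 10 ≤ (zN N : ℝ) ^ KN N := by rw [hX]; exact_mod_cast hzK
    rw [le_div_iff₀ (by norm_num : (0 : ℝ) < 8)]
    have h2 : 2048 * X ^ 8 / (zN N : ℝ) ^ KN N ≤ 2048 / X ^ 2 := by
      rw [div_le_div_iff₀ hz0 (by positivity)]
      calc 2048 * X ^ 8 * X ^ 2 = 2048 * X ^ 10 := by ring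
        _ ≤ 2048 * (zN N : ℝ) ^ KN N := by gcongr
    rw [← hX]
    calc (KN N : ℝ) ^ KN N * (2048 * X ^ 8 / (zN N : ℝ) ^ KN N) * 8
        ≤ (B ^ KN N * VV U ^ KN N) * (2048 / X ^ 2) * 8 := by gcongr
      _ = (16384 * B ^ KN N / X ^ 2) * VV U ^ KN N := by ring
      _ ≤ 1 * VV U ^ KN N := by
        apply mul_le_mul_of_nonneg_right _ hVK.le
        rw [div_le_one (by positivity)]
        calc 16384 * B ^ KN N ≤ B * B ^ KN N := by gcongr
          _ = B ^ (KN N + 1) := by ring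
          _ ≤ X ^ τ := hBK _ (by omega)
          _ ≤ X ^ (2 : ℝ) := by
            apply Real.rpow_le_rpow_of_exponent_le hX1
            linarith
          _ = X ^ 2 := Real.rpow_two X
      _ = VV U ^ KN N := one_mul _

end Pool.Agent.Helper30.RD9
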