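import Pool.Agent.Helper30.RD9.Sheet
import Pool.Agent.Helper27.RD6.BDJR
import Pool.Agent.Helper92.RD8.SMOR

/-! Project RD, row SPR (copy of SPX, `Helper18/RD6/SPX.lean`, with rows). -/

set_option autoImplicit false

namespace Pool.Agent.Helper30.RD9

open Finset Pool.Agent.Helper18.RD Pool.Agent.Helper19.RD Pool.Agent.Helper18.RD.S27
  Pool.Agent.Helper18.RD.S45

theorem st_SPR (hB : ST_BILR) : ST_SPR := by
  classical
  intro N q a r S J e c d k w ξ ρ m x y hN hq hDR hJS hx hy hxy hNQ hξ hJ100 hsq hodd hcop hρ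
    hrow hxyp hρr
  have hDat := hDR.dat
  have hDN := hDR.datN
  have hNr : (1 : ℝ) ≤ N := by exact_mod_cast hN
  have hr0 : r ≠ 0 := hsq.ne_zero
  have hrpos : 0 < r := Nat.pos_of_ne_zero hr0
  have hrr : (0 : ℝ) < r := by exact_mod_cast hrpos
  have : NeZero r := ⟨hr0⟩
  have hRpr : ∀ p ∈ r.primeFactors, p.Prime ∧ p ≠ 2 ∧ ¬ p ∣ q := by
    intro p hp
    have hpr := Nat.prime_of_mem_primeFactors hp
    have hdv := Nat.dvd_of_mem_primeFactors hp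
    refine ⟨hpr, ?_, ?_⟩
    · rintro rfl
      exact (Nat.not_even_iff_odd.2 hodd) (even_iff_two_dvd.2 hdv)
    · intro h
      have h5 := Nat.dvd_gcd hdv h
      rw [hcop] at h5
      exact hpr.one_lt.ne' (Nat.dvd_one.1 h5)
  have hch : ∀ p : ℕ, ∃ g : ℕ → ℤ, (∀ n, g n = 1 ∨ g n = -1) ∧
      (p.Prime → p ≠ 2 → ¬ p ∣ q → ∀ n ∈ S, ∀ n' ∈ S, n ≠ n' →
        jacobiSym (m n + m n') p = jacobiSym (d n n') p * g n * g n') := by
    intro p
    by_cases hp : p.Prime ∧ p ≠ 2 ∧ ¬ p ∣ q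
    · obtain ⟨g, hg, hg'⟩ := hDN.chn p hp.1 hp.2.1 hp.2.2
      exact ⟨g, hg, fun _ _ _ => hg'⟩
    · exact ⟨fun _ => 1, fun _ => Or.inl rfl, fun a1 a2 a3 => absurd ⟨a1, a2, a3⟩ hp⟩
  choose g0 hg0 hg0' using hch
  obtain ⟨g, hgdef⟩ : ∃ g : ℕ → ℤ, g = fun n => ∏ p ∈ r.primeFactors, g0 p n := ⟨_, rfl⟩
  have hgsq : ∀ n, g n * g n = 1 := by
    intro n
    rw [hgdef]
    show (∏ p ∈ r.primeFactors, g0 p n) * (∏ p ∈ r.primeFactors, g0 p n) = 1
    rw [← prod_mul_distrib]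
    refine prod_eq_one (fun p _ => ?_)
    rcases hg0 p n with h | h <;> rw [h] <;> norm_num
  have hgabs : ∀ n, |g n| = 1 := by
    intro n
    have h5 := hgsq n
    have h6 : |g n| * |g n| = 1 := by rw [abs_mul_abs_self]; exact h5
    nlinarith [abs_nonneg (g n)]
  have hg' : ∀ n ∈ S, ∀ n' ∈ S, n ≠ n' →
      jacobiSym (m n + m n') r = jacobiSym (d n n') r * g n * g n' := by
    intro n hn n' hn' hne
    rw [jac_sqf _ hsq, jac_sqf (d n n') hsq, hgdef]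
    show _ = (∏ p ∈ r.primeFactors, jacobiSym (d n n') p) * (∏ p ∈ r.primeFactors, g0 p n) *
      (∏ p ∈ r.primeFactors, g0 p n')
    rw [← prod_mul_distrib, ← prod_mul_distrib]
    refine prod_congr rfl (fun p hp => ?_)
    obtain ⟨a1, a2, a3⟩ := hRpr p hp
    exact hg0' p a1 a2 a3 n hn n' hn' hne
  have hdif : ∀ i ∈ J, ∀ j ∈ J, (r : ℤ) ∣ m i - m j → (r : ℤ) ∣ (i : ℤ) - j := by
    intro i hi j hj hdv
    rw [Int.natCast_dvd]
    rw [← Nat.prod_primeFactors_of_squarefree hsq]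
    refine Finset.prod_primes_dvd _ (fun p hp => (Nat.prime_of_mem_primeFactors hp).prime) ?_
    intro p hp
    obtain ⟨a1, a2, a3⟩ := hRpr p hp
    rw [← Int.natCast_dvd]
    refine hDN.dif i (hJS hi) j (hJS hj) p a1 a3 (dvd_trans ?_ hdv)
    exact_mod_cast Nat.dvd_of_mem_primeFactors hp
  -- a prime of `r` dividing `d n n'` divides `m n + m n'`
  have hdd : ∀ n ∈ J, ∀ n' ∈ J, n ≠ n' → ∀ p ∈ r.primeFactors, p ∣ (d n n').natAbs →
      (p : ℤ) ∣ m n + m n' := by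
    intro n hn n' hn' hne p hp hdv
    obtain ⟨v, hv1, hv2⟩ := hDR.dv n (hJS hn) n' (hJS hn') hne
    rw [← hv2]
    exact Dvd.dvd.mul_left (Int.natCast_dvd.2 hdv) _
  have hd0 : ∀ n ∈ J, ∀ n' ∈ J, n ≠ n' → d n n' ≠ 0 := by
    intro n hn n' hn' hne
    have := hDR.pos n (hJS hn) n' (hJS hn') hne
    omega
  obtain ⟨F, hF⟩ : ∃ F : ℕ → ℤ, F = fun i => g i * jacobiSym (d i y) r := ⟨_, rfl⟩
  obtain ⟨G, hG⟩ : ∃ G : ℕ → ℤ, G = fun j => g j * jacobiSym (d x j * d x y) r := ⟨_, rfl⟩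
  have hF1 : ∀ n, |F n| ≤ 1 := by
    intro n
    rw [hF]
    show |g n * jacobiSym (d n y) r| ≤ 1
    rw [abs_mul, hgabs, one_mul]
    exact abs_jac _ _
  have hG1 : ∀ n, |G n| ≤ 1 := by
    intro n
    rw [hG]
    show |g n * jacobiSym (d x n * d x y) r| ≤ 1
    rw [abs_mul, hgabs, one_mul]
    exact abs_jac _ _
  obtain ⟨T, hT⟩ : ∃ T : ℕ → ℕ → ℤ, T = fun i j => jacobiSym (m i + m j) r * F i * G j := ⟨_, rfl⟩
  have hTabs : ∀ i j, |T i j| ≤ 1 := by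
    intro i j
    rw [hT]
    show |jacobiSym (m i + m j) r * F i * G j| ≤ 1
    rw [abs_mul, abs_mul]
    exact mul_le_one₀ (mul_le_one₀ (abs_jac _ _) (abs_nonneg _) (hF1 i)) (abs_nonneg _) (hG1 j)
  -- good pairs
  have hgood : ∀ i ∈ J, ∀ j ∈ J, i ≠ j → i ≠ y → x ≠ j →
      IsSquare (d i j * d i y * d x j * d x y) →
      (∀ p ∈ r.primeFactors, ¬ (p : ℤ) ∣ m i + m j) →
      (∀ p ∈ r.primeFactors, ¬ (p : ℤ) ∣ m i + m y) →
      (∀ p ∈ r.primeFactors, ¬ (p : ℤ) ∣ m x + m j) → T i j = 1 := by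
    intro i hi j hj hij hiy hxj hs h1 h2 h3
    have e1 : T i j = jacobiSym (d i j * d i y * d x j * d x y) r := by
      rw [hT, hF, hG]
      show jacobiSym (m i + m j) r * (g i * jacobiSym (d i y) r) *
        (g j * jacobiSym (d x j * d x y) r) = _
      rw [hg' i (hJS hi) j (hJS hj) hij, jacobiSym.mul_left, jacobiSym.mul_left,
        jacobiSym.mul_left, jacobiSym.mul_left]
      calc _ = (jacobiSym (d i j) r * jacobiSym (d i y) r * jacobiSym (d x j) r *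
            jacobiSym (d x y) r) * (g i * g i) * (g j * g j) := by ring
        _ = _ := by rw [hgsq, hgsq]; ring
    rw [e1]
    refine jac_sq_one hs ?_
    refine Nat.Coprime.symm ?_
    refine Nat.coprime_of_dvd ?_
    intro p hp hp1 hp2
    have hpr : p ∈ r.primeFactors := Nat.mem_primeFactors.2 ⟨hp, hp2, hr0⟩
    rw [Int.natAbs_mul, Int.natAbs_mul, Int.natAbs_mul] at hp1
    rcases (Nat.Prime.dvd_mul hp).1 hp1 with h | h
    · rcases (Nat.Prime.dvd_mul hp).1 h with h | h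
      · rcases (Nat.Prime.dvd_mul hp).1 h with h | h
        · exact h1 p hpr (hdd i hi j hj hij p hpr h)
        · exact h2 p hpr (hdd i hi y hy hiy p hpr h)
      · exact h3 p hpr (hdd x hx j hj hxj p hpr h)
    · exact hxyp p hp hp2 (hdd x hx y hy hxy p hpr h)
  obtain ⟨NN, hNN⟩ : ∃ NN : ℕ, NN = (NQ J d x y).card := ⟨_, rfl⟩
  -- pointwise lower bound
  obtain ⟨I, hI⟩ : ∃ I : Prop → ℤ, I = fun P => if P then (1 : ℤ) else 0 := ⟨_, rfl⟩
  have hI0 : ∀ P, 0 ≤ I P := by intro P; rw [hI]; show 0 ≤ (if P then (1 : ℤ) else 0); split_ifs <;> norm_num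
  have hI1 : ∀ P, P → I P = 1 := by intro P hP; rw [hI]; show (if P then (1 : ℤ) else 0) = 1; rw [if_pos hP]
  obtain ⟨Bd, hBd⟩ : ∃ Bd : ℕ → ℕ → ℤ, Bd = fun i j => I (i = j) + I (i = y) + I (x = j) +
      I ((i, j) ∈ NQ J d x y) + (∑ p ∈ r.primeFactors, I (i ≠ j ∧ (p : ℤ) ∣ m i + m j) +
      ∑ p ∈ r.primeFactors, I (i ≠ y ∧ (p : ℤ) ∣ m i + m y) +
      ∑ p ∈ r.primeFactors, I (x ≠ j ∧ (p : ℤ) ∣ m x + m j)) := ⟨_, rfl⟩
  have hpt : ∀ i ∈ J, ∀ j ∈ J, 1 - 2 * Bd i j ≤ T i j := by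
    intro i hi j hj
    have hs1 : 0 ≤ ∑ p ∈ r.primeFactors, I (i ≠ j ∧ (p : ℤ) ∣ m i + m j) := sum_nonneg fun p _ => hI0 _
    have hs2 : 0 ≤ ∑ p ∈ r.primeFactors, I (i ≠ y ∧ (p : ℤ) ∣ m i + m y) := sum_nonneg fun p _ => hI0 _
    have hs3 : 0 ≤ ∑ p ∈ r.primeFactors, I (x ≠ j ∧ (p : ℤ) ∣ m x + m j) := sum_nonneg fun p _ => hI0 _
    have hi1 := hI0 (i = j)
    have hi2 := hI0 (i = y)
    have hi3 := hI0 (x = j)
    have hi4 := hI0 ((i, j) ∈ NQ J d x y)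
    have hlow : -1 ≤ T i j := (abs_le.1 (hTabs i j)).1
    by_cases hb : 1 ≤ Bd i j
    · linarith
    · have hb0 : Bd i j ≤ 0 := by omega
      have hbe : Bd i j = I (i = j) + I (i = y) + I (x = j) +
        I ((i, j) ∈ NQ J d x y) + (∑ p ∈ r.primeFactors, I (i ≠ j ∧ (p : ℤ) ∣ m i + m j) +
        ∑ p ∈ r.primeFactors, I (i ≠ y ∧ (p : ℤ) ∣ m i + m y) +
        ∑ p ∈ r.primeFactors, I (x ≠ j ∧ (p : ℤ) ∣ m x + m j)) := by rw [hBd]
      have c1 : i ≠ j := by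
        intro h
        have := hI1 _ h
        linarith
      have c2 : i ≠ y := by
        intro h
        have := hI1 _ h
        linarith
      have c3 : x ≠ j := by
        intro h
        have := hI1 _ h
        linarith
      have c4 : (i, j) ∉ NQ J d x y := by
        intro h
        have := hI1 _ h
        linarith
      have c5 : ∀ p ∈ r.primeFactors, ¬ (p : ℤ) ∣ m i + m j := by
        intro p hp h
        have h1 := hI1 (i ≠ j ∧ (p : ℤ) ∣ m i + m j) ⟨c1, h⟩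
        have h2 : I (i ≠ j ∧ (p : ℤ) ∣ m i + m j) ≤ ∑ p ∈ r.primeFactors, I (i ≠ j ∧ (p : ℤ) ∣ m i + m j) :=
          single_le_sum (f := fun p : ℕ => I (i ≠ j ∧ (p : ℤ) ∣ m i + m j)) (fun p _ => hI0 _) hp
        linarith
      have c6 : ∀ p ∈ r.primeFactors, ¬ (p : ℤ) ∣ m i + m y := by
        intro p hp h
        have h1 := hI1 (i ≠ y ∧ (p : ℤ) ∣ m i + m y) ⟨c2, h⟩
        have h2 : I (i ≠ y ∧ (p : ℤ) ∣ m i + m y) ≤ ∑ p ∈ r.primeFactors, I (i ≠ y ∧ (p : ℤ) ∣ m i + m y) :=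
          single_le_sum (f := fun p : ℕ => I (i ≠ y ∧ (p : ℤ) ∣ m i + m y)) (fun p _ => hI0 _) hp
        linarith
      have c7 : ∀ p ∈ r.primeFactors, ¬ (p : ℤ) ∣ m x + m j := by
        intro p hp h
        have h1 := hI1 (x ≠ j ∧ (p : ℤ) ∣ m x + m j) ⟨c3, h⟩
        have h2 : I (x ≠ j ∧ (p : ℤ) ∣ m x + m j) ≤ ∑ p ∈ r.primeFactors, I (x ≠ j ∧ (p : ℤ) ∣ m x + m j) :=
          single_le_sum (f := fun p : ℕ => I (x ≠ j ∧ (p : ℤ) ∣ m x + m j)) (fun p _ => hI0 _) hp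
        linarith
      have c8 : IsSquare (d i j * d i y * d x j * d x y) := by
        by_contra hns
        apply c4
        rw [NQ, mem_filter, mem_product]
        exact ⟨⟨hi, hj⟩, c1, c2, c3, hns⟩
      rw [hgood i hi j hj c1 c2 c3 c8 c5 c6 c7]
      have hBn : 0 ≤ Bd i j := by rw [hbe]; positivity
      linarith
  -- the number of bad pairs
  obtain ⟨n, hn⟩ : ∃ n : ℕ, n = J.card := ⟨_, rfl⟩
  have hIs : ∀ (A : Finset ℕ) (P : ℕ → Prop) [DecidablePred P],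
      ∑ i ∈ A, I (P i) = ((A.filter P).card : ℤ) := by
    intro A P _
    rw [Finset.card_filter]
    push_cast
    refine sum_congr rfl fun i _ => ?_
    by_cases h : P i
    · rw [hI1 _ h, if_pos h]
    · rw [hI, if_neg h]
      exact if_neg h
  have hJN : J ⊆ range N := fun i hi => hDat.sub (hJS hi)
  have hcl : ∀ p ∈ r.primeFactors, ∀ i ∈ J,
      (((J.filter (fun j : ℕ => i ≠ j ∧ (p : ℤ) ∣ m i + m j)).card : ℤ) : ℝ) ≤ ρ * n := by
    intro p hp i hi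
    rw [Int.cast_natCast, hn]
    exact hrow i hi p (Nat.prime_of_mem_primeFactors hp) (Nat.dvd_of_mem_primeFactors hp)
  have hcl' : ∀ p ∈ r.primeFactors, ∀ j ∈ J,
      (((J.filter (fun i : ℕ => i ≠ j ∧ (p : ℤ) ∣ m i + m j)).card : ℤ) : ℝ) ≤ ρ * n := by
    intro p hp j hj
    have h1 := hcl p hp j hj
    have h2 : J.filter (fun i : ℕ => i ≠ j ∧ (p : ℤ) ∣ m i + m j) =
        J.filter (fun i : ℕ => j ≠ i ∧ (p : ℤ) ∣ m j + m i) := by
      refine filter_congr fun i _ => ?_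
      rw [add_comm (m i) (m j), ne_comm]
    rw [h2]
    exact h1
  obtain ⟨W, hW⟩ : ∃ W : ℝ, W = (r.primeFactors.card : ℝ) * (ρ * n) := ⟨_, rfl⟩
  have hn0 : (0 : ℝ) ≤ n := Nat.cast_nonneg _
  have hWJ : 100 * W ≤ n := by
    rw [hW]
    calc 100 * ((r.primeFactors.card : ℝ) * (ρ * n)) = (100 * (r.primeFactors.card : ℝ) * ρ) * n := by
          ring
      _ ≤ 1 * n := mul_le_mul_of_nonneg_right hρr hn0
      _ = n := one_mul _
  have hsumB : ((∑ i ∈ J, ∑ j ∈ J, Bd i j : ℤ) : ℝ) ≤ 3 * n + ξ * n ^ 2 + 3 * n * W := by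
    have e0 : ∑ i ∈ J, ∑ j ∈ J, Bd i j = ∑ i ∈ J, ∑ j ∈ J, I (i = j) + ∑ i ∈ J, ∑ j ∈ J, I (i = y)
        + ∑ i ∈ J, ∑ j ∈ J, I (x = j) + ∑ i ∈ J, ∑ j ∈ J, I ((i, j) ∈ NQ J d x y) +
        (∑ i ∈ J, ∑ j ∈ J, ∑ p ∈ r.primeFactors, I (i ≠ j ∧ (p : ℤ) ∣ m i + m j) +
        ∑ i ∈ J, ∑ j ∈ J, ∑ p ∈ r.primeFactors, I (i ≠ y ∧ (p : ℤ) ∣ m i + m y) +
        ∑ i ∈ J, ∑ j ∈ J, ∑ p ∈ r.primeFactors, I (x ≠ j ∧ (p : ℤ) ∣ m x + m j)) := by
      rw [hBd]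
      simp only [sum_add_distrib]
    have f1 : ∑ i ∈ J, ∑ j ∈ J, I (i = j) ≤ n := by
      have : ∀ i ∈ J, ∑ j ∈ J, I (i = j) ≤ 1 := by
        intro i _
        rw [hIs]
        have : J.filter (fun j => i = j) ⊆ {i} := by
          intro j hj
          rw [mem_filter] at hj
          rw [mem_singleton]; exact hj.2.symm
        have h := card_le_card this
        rw [card_singleton] at h
        exact_mod_cast h
      refine (sum_le_sum this).trans ?_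
      rw [sum_const, nsmul_eq_mul, mul_one, hn]
    have f2 : ∑ i ∈ J, ∑ j ∈ J, I (i = y) ≤ n := by
      have h1 : ∑ i ∈ J, ∑ j ∈ J, I (i = y) = n * ∑ i ∈ J, I (i = y) := by
        rw [mul_sum]
        refine sum_congr rfl fun i _ => ?_
        rw [sum_const, nsmul_eq_mul, hn]
      rw [h1, hIs]
      have : J.filter (fun i => i = y) ⊆ {y} := by
        intro j hj
        rw [mem_filter] at hj
        rw [mem_singleton]; exact hj.2
      have h := card_le_card this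
      rw [card_singleton] at h
      have h' : ((J.filter (fun i => i = y)).card : ℤ) ≤ 1 := by exact_mod_cast h
      nlinarith [Nat.zero_le n]
    have f3 : ∑ i ∈ J, ∑ j ∈ J, I (x = j) ≤ n := by
      have : ∀ i ∈ J, ∑ j ∈ J, I (x = j) ≤ 1 := by
        intro i _
        rw [hIs]
        have : J.filter (fun j => x = j) ⊆ {x} := by
          intro j hj
          rw [mem_filter] at hj
          rw [mem_singleton]; exact hj.2.symm
        have h := card_le_card this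
        rw [card_singleton] at h
        exact_mod_cast h
      refine (sum_le_sum this).trans ?_
      rw [sum_const, nsmul_eq_mul, mul_one, hn]
    have f4 : ∑ i ∈ J, ∑ j ∈ J, I ((i, j) ∈ NQ J d x y) ≤ NN := by
      rw [← sum_product' J J (fun i j => I ((i, j) ∈ NQ J d x y)), hNN]
      have e : ∀ z : ℕ × ℕ, I ((z.1, z.2) ∈ NQ J d x y) = if z ∈ NQ J d x y then 1 else 0 := by
        intro z
        by_cases h : z ∈ NQ J d x y
        · rw [if_pos h, hI1 _ h]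
        · rw [if_neg h, hI]
          exact if_neg h
      rw [sum_congr rfl fun z _ => e z, sum_boole, Nat.cast_le]
      exact card_le_card (fun z hz => (mem_filter.1 hz).2)
    have f5 : ((∑ i ∈ J, ∑ j ∈ J, ∑ p ∈ r.primeFactors, I (i ≠ j ∧ (p : ℤ) ∣ m i + m j) : ℤ) : ℝ) ≤
        n * W := by
      have h1 : ∑ i ∈ J, ∑ j ∈ J, ∑ p ∈ r.primeFactors, I (i ≠ j ∧ (p : ℤ) ∣ m i + m j) =
          ∑ i ∈ J, ∑ p ∈ r.primeFactors, ((J.filter (fun j : ℕ => i ≠ j ∧ (p : ℤ) ∣ m i + m j)).card : ℤ) := by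
        refine sum_congr rfl fun i _ => ?_
        rw [sum_comm]
        refine sum_congr rfl fun p _ => ?_
        rw [hIs]
      rw [h1, Int.cast_sum]
      have h2 : ∀ i ∈ J, ((∑ p ∈ r.primeFactors,
          ((J.filter (fun j : ℕ => i ≠ j ∧ (p : ℤ) ∣ m i + m j)).card : ℤ) : ℤ) : ℝ) ≤ W := by
        intro i hi
        rw [Int.cast_sum, hW, ← nsmul_eq_mul]
        exact sum_le_card_nsmul _ _ _ (fun p hp => hcl p hp i hi)
      refine (sum_le_sum h2).trans ?_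
      rw [sum_const, nsmul_eq_mul, hn]
    have f6 : ((∑ i ∈ J, ∑ j ∈ J, ∑ p ∈ r.primeFactors, I (i ≠ y ∧ (p : ℤ) ∣ m i + m y) : ℤ) : ℝ) ≤
        n * W := by
      have h1 : ∑ i ∈ J, ∑ j ∈ J, ∑ p ∈ r.primeFactors, I (i ≠ y ∧ (p : ℤ) ∣ m i + m y) =
          ∑ j ∈ J, ∑ p ∈ r.primeFactors, ((J.filter (fun i : ℕ => i ≠ y ∧ (p : ℤ) ∣ m i + m y)).card : ℤ) := by
        rw [sum_comm]
        refine sum_congr rfl fun i _ => ?_
        rw [sum_comm]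
        refine sum_congr rfl fun p _ => ?_
        rw [hIs]
      rw [h1, Int.cast_sum]
      have h2 : ∀ i ∈ J, ((∑ p ∈ r.primeFactors,
          ((J.filter (fun i : ℕ => i ≠ y ∧ (p : ℤ) ∣ m i + m y)).card : ℤ) : ℤ) : ℝ) ≤ W := by
        intro i _
        rw [Int.cast_sum, hW, ← nsmul_eq_mul]
        exact sum_le_card_nsmul _ _ _ (fun p hp => hcl' p hp y hy)
      refine (sum_le_sum h2).trans ?_
      rw [sum_const, nsmul_eq_mul, hn]
    have f7 : ((∑ i ∈ J, ∑ j ∈ J, ∑ p ∈ r.primeFactors, I (x ≠ j ∧ (p : ℤ) ∣ m x + m j) : ℤ) : ℝ) ≤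
        n * W := by
      have h1 : ∑ i ∈ J, ∑ j ∈ J, ∑ p ∈ r.primeFactors, I (x ≠ j ∧ (p : ℤ) ∣ m x + m j) =
          ∑ i ∈ J, ∑ p ∈ r.primeFactors, ((J.filter (fun j : ℕ => x ≠ j ∧ (p : ℤ) ∣ m x + m j)).card : ℤ) := by
        refine sum_congr rfl fun i _ => ?_
        rw [sum_comm]
        refine sum_congr rfl fun p _ => ?_
        rw [hIs]
      rw [h1, Int.cast_sum]
      have h2 : ∀ i ∈ J, ((∑ p ∈ r.primeFactors,
          ((J.filter (fun j : ℕ => x ≠ j ∧ (p : ℤ) ∣ m x + m j)).card : ℤ) : ℤ) : ℝ) ≤ W := by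
        intro i _
        rw [Int.cast_sum, hW, ← nsmul_eq_mul]
        exact sum_le_card_nsmul _ _ _ (fun p hp => hcl p hp x hx)
      refine (sum_le_sum h2).trans ?_
      rw [sum_const, nsmul_eq_mul, hn]
    have hNQ' : (NN : ℝ) ≤ ξ * n ^ 2 := by rw [hNN, hn]; exact hNQ
    have g1 : ((∑ i ∈ J, ∑ j ∈ J, I (i = j) : ℤ) : ℝ) ≤ n := by exact_mod_cast f1
    have g2 : ((∑ i ∈ J, ∑ j ∈ J, I (i = y) : ℤ) : ℝ) ≤ n := by exact_mod_cast f2
    have g3 : ((∑ i ∈ J, ∑ j ∈ J, I (x = j) : ℤ) : ℝ) ≤ n := by exact_mod_cast f3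
    have g4 : ((∑ i ∈ J, ∑ j ∈ J, I ((i, j) ∈ NQ J d x y) : ℤ) : ℝ) ≤ NN := by exact_mod_cast f4
    rw [e0]
    push_cast at f5 f6 f7 g1 g2 g3 g4 ⊢
    linarith
  have hsumT : (n : ℝ) ^ 2 - 2 * (3 * n + ξ * n ^ 2 + 3 * n * W) ≤
      ((∑ i ∈ J, ∑ j ∈ J, T i j : ℤ) : ℝ) := by
    have h1 : ∑ i ∈ J, ∑ j ∈ J, (1 - 2 * Bd i j) ≤ ∑ i ∈ J, ∑ j ∈ J, T i j :=
      sum_le_sum fun i hi => sum_le_sum fun j hj => hpt i hi j hj
    have h2 : ∑ i ∈ J, ∑ j ∈ J, (1 - 2 * Bd i j) = (n : ℤ) ^ 2 - 2 * ∑ i ∈ J, ∑ j ∈ J, Bd i j := by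
      simp only [sum_sub_distrib, ← mul_sum, sum_const, nsmul_eq_mul, mul_one, hn]
      ring
    rw [h2] at h1
    have h3 : (((n : ℤ) ^ 2 - 2 * ∑ i ∈ J, ∑ j ∈ J, Bd i j : ℤ) : ℝ) ≤
        ((∑ i ∈ J, ∑ j ∈ J, T i j : ℤ) : ℝ) := Int.cast_le.2 h1
    rw [Int.cast_sub, Int.cast_mul, Int.cast_pow, Int.cast_natCast, Int.cast_ofNat] at h3
    linarith
  -- the bilinear bound
  have hbil := hB r J m F G hsq hodd hF1 hG1
  obtain ⟨M, hM⟩ : ∃ M : ℕ, M = ((J ×ˢ J).filter (fun x => (r : ℤ) ∣ m x.1 - m x.2)).card :=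
    ⟨_, rfl⟩
  rw [← hM] at hbil
  have hMle : (M : ℝ) ≤ n * ((N : ℝ) / r + 1) := by
    have h1 : M ≤ ∑ i ∈ J, (J.filter (fun j : ℕ => (r : ℤ) ∣ (i : ℤ) - j)).card := by
      rw [hM, Finset.card_filter, sum_product]
      refine sum_le_sum fun i hi => ?_
      rw [Finset.card_filter]
      refine sum_le_sum fun j hj => ?_
      by_cases hd : (r : ℤ) ∣ m i - m j
      · rw [if_pos hd, if_pos (hdif i hi j hj hd)]
      · rw [if_neg hd]
        exact Nat.zero_le _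
    have h2 : M ≤ n * (N / r + 1) := by
      refine h1.trans ?_
      refine (sum_le_sum fun i hi => Pool.Agent.Helper92.RD8.card_class N r i hrpos J hJN).trans ?_
      rw [sum_const, smul_eq_mul, hn]
    have h3 : (M : ℝ) ≤ n * (((N / r : ℕ) : ℝ) + 1) := by exact_mod_cast h2
    have h4 : ((N / r : ℕ) : ℝ) ≤ (N : ℝ) / r := Nat.cast_div_le
    have h5 : (0 : ℝ) ≤ n := Nat.cast_nonneg _
    nlinarith
  have hnr : (100 : ℝ) ≤ n := by rw [hn]; exact_mod_cast hJ100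
  have hsr : Real.sqrt r * Real.sqrt r = r := Real.mul_self_sqrt hrr.le
  have hsr0 : 0 < Real.sqrt r := Real.sqrt_pos.2 hrr
  have hsum1 : (n : ℝ) ^ 2 / 2 ≤ ((∑ i ∈ J, ∑ j ∈ J, T i j : ℤ) : ℝ) := by
    refine le_trans ?_ hsumT
    have h1 : 3 * (n : ℝ) ≤ 3 / 100 * n ^ 2 := by nlinarith
    have h2 : ξ * (n : ℝ) ^ 2 ≤ 1 / 16 * n ^ 2 := by
      apply mul_le_mul_of_nonneg_right hξ; positivity
    have h3 : 3 * (n : ℝ) * W ≤ 3 / 100 * n ^ 2 := by nlinarith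
    nlinarith
  have hbil' : (((∑ i ∈ J, ∑ j ∈ J, T i j : ℤ) : ℝ)) ^ 2 ≤ (Real.sqrt r * M) ^ 2 := by
    have h1 : (((∑ i ∈ J, ∑ j ∈ J, jacobiSym (m i + m j) r * F i * G j) ^ 2 : ℤ) : ℝ) ≤
        (((r : ℤ) * (M : ℤ) ^ 2 : ℤ) : ℝ) := Int.cast_le.2 hbil
    have h2 : ∑ i ∈ J, ∑ j ∈ J, T i j =
        ∑ i ∈ J, ∑ j ∈ J, jacobiSym (m i + m j) r * F i * G j := by rw [hT]
    rw [h2, mul_pow, sq (Real.sqrt r), hsr]
    rw [Int.cast_pow, Int.cast_mul, Int.cast_pow, Int.cast_natCast, Int.cast_natCast] at h1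
    exact h1
  have hM0 : (0 : ℝ) ≤ M := Nat.cast_nonneg _
  have h6 : (n : ℝ) ^ 2 / 2 ≤ Real.sqrt r * M := by
    refine hsum1.trans ?_
    exact le_of_sq_le_sq hbil' (by positivity)
  have h7 : (n : ℝ) ^ 2 / 2 ≤ Real.sqrt r * (n * ((N : ℝ) / r + 1)) :=
    h6.trans (mul_le_mul_of_nonneg_left hMle hsr0.le)
  have h8 : Real.sqrt r * ((N : ℝ) / r + 1) = Real.sqrt r + N / Real.sqrt r := by
    have h8' : Real.sqrt r * ((N : ℝ) / r) = N / Real.sqrt r := by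
      rw [eq_div_iff hsr0.ne']
      calc Real.sqrt r * ((N : ℝ) / r) * Real.sqrt r = (Real.sqrt r * Real.sqrt r) * (N / r) := by
            ring
        _ = N := by rw [hsr]; field_simp
    rw [mul_add, mul_one, h8', add_comm]
  have hn0 : (0 : ℝ) < n := by linarith
  have h9 : (n : ℝ) * n ≤ n * (2 * (Real.sqrt r + N / Real.sqrt r)) := by
    rw [← h8]
    nlinarith
  rw [← hn]
  exact le_of_mul_le_mul_left h9 hn0

end Pool.Agent.Helper30.RD9
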