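import Pool.Agent.Helper19.RD.All8
import Pool.Agent.Helper96.RD6.BILR
import Pool.Agent.Helper85.RD9.PGX
import Pool.Agent.Helper30.RD9.A1P
import Pool.Agent.Helper30.RD9.SPR
import Pool.Agent.Helper30.RD9.MAIN11

/-! Project RD, last form: assembly. -/

set_option autoImplicit false

namespace Pool.Agent.Helper30.RD9

open Pool.Agent.Helper18.RD Pool.Agent.Helper19.RD

theorem a1p : ST_A1P :=
  st_A1P rd8_arr (st_VLB rd8_npb st_PAR) Pool.Agent.Helper47.RD8.st_EXT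
    Pool.Agent.Helper93.RD8.st_WE (Pool.Agent.Helper97.RD8.st_OSF rd8_exc) rd8_ggs
    st_CLU (Pool.Agent.Helper77.RD8.st_NSQ rd8_wl1) Pool.Agent.Helper97.RD8.st_CYB st_PAR st_CDB

/-- `4 / ε + 4` primes of `[N ^ ε, N ^ (2 ε)]` not dividing `q`: `#S ≤ C N ^ (1 / 2 + 2 ε)` -/
theorem main11 : ST_MAIN11 :=
  st_MAIN11 a1p Pool.Agent.Helper85.RD9.st_PGX (st_SPR st_BILR)

end Pool.Agent.Helper30.RD9
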