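import Pool.Agent.Helper18.RD.Stmts9
import Pool.Agent.Helper19.RD.Stmts9

/-! Project RD, last form: a bounded number of primes of `[N ^ ε, N ^ (2 ε)]` not dividing `q`. -/

set_option autoImplicit false

namespace Pool.Agent.Helper30.RD9

open Finset Pool.Agent.Helper18.RD Pool.Agent.Helper19.RD

/-- A1P: A1 together with the rows of the extremal class. -/
def ST_A1P : Prop := ∀ ε η : ℝ, 0 < ε → ε ≤ 1 / 10 → 0 < η → ∃ (δ : ℝ) (N0 : ℕ), 0 < δ ∧ δ ≤ ε ∧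
  ∀ N q a : ℕ, N0 ≤ N → 1 ≤ q → Nat.Coprime q a →
  (N : ℝ) ^ (1 / 2 + ε) ≤ (SS N q a).card →
  ∃ (S J : Finset ℕ) (e c d : ℕ → ℕ → ℤ) (k : ℤ) (w : ℝ) (m : ℕ → ℤ) (b : ℕ → ℕ),
    DatR N q a S e c d k w m ∧ J ⊆ S ∧
    ((SS N q a).card : ℝ) ≤ (N : ℝ) ^ (ε / 4) * J.card ∧
    (∀ i ∈ J, ∀ p : ℕ, p.Prime → p ≠ 2 →
      ((J.filter (fun j => i ≠ j ∧ (d i j).natAbs.factorization p ≠ b p)).card : ℝ) ≤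
        (N : ℝ) ^ (ε / 8 * η) * (p : ℝ) ^ (-(ε / 8)) * J.card) ∧
    ((TN J d).card : ℝ) ≤ (N : ℝ) ^ (-δ) * (J.card : ℝ) ^ 4

/-- SPR: SPX with a bound for the rows. -/
def ST_SPR : Prop := ∀ (N q a r : ℕ) (S J : Finset ℕ) (e c d : ℕ → ℕ → ℤ) (k : ℤ) (w ξ ρ : ℝ)
  (m : ℕ → ℤ) (x y : ℕ), 1 ≤ N → 1 ≤ q → DatR N q a S e c d k w m → J ⊆ S → x ∈ J → y ∈ J →
  x ≠ y → ((NQ J d x y).card : ℝ) ≤ ξ * (J.card : ℝ) ^ 2 → ξ ≤ 1 / 16 → 100 ≤ J.card →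
  Squarefree r → Odd r → Nat.Coprime r q → 0 ≤ ρ →
  (∀ i ∈ J, ∀ p : ℕ, p.Prime → p ∣ r →
    ((J.filter (fun j => i ≠ j ∧ (p : ℤ) ∣ m i + m j)).card : ℝ) ≤ ρ * J.card) →
  (∀ p : ℕ, p.Prime → p ∣ r → ¬ (p : ℤ) ∣ m x + m y) →
  100 * (r.primeFactors.card : ℝ) * ρ ≤ 1 →
  (J.card : ℝ) ≤ 2 * (Real.sqrt r + N / Real.sqrt r)

/-- MAIN11: `4 / ε + 4` primes of `[N ^ ε, N ^ (2 ε)]` which do not divide `q`. -/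
def ST_MAIN11 : Prop := ∀ ε : ℝ, 0 < ε → ∃ C : ℝ, 0 < C ∧ ∀ N q a : ℕ, 1 ≤ N → 1 ≤ q →
  Nat.Coprime q a →
  4 / ε + 4 ≤ (((range (N + 1)).filter (fun p : ℕ => p.Prime ∧ ¬ p ∣ q ∧
    (N : ℝ) ^ ε ≤ p ∧ (p : ℝ) ≤ (N : ℝ) ^ (2 * ε))).card : ℝ) →
  (((range N).filter (fun n => IsSquare (q * n + a))).card : ℝ) ≤ C * (N : ℝ) ^ (1 / 2 + 2 * ε)

end Pool.Agent.Helper30.RD9
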